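import Mathlib

/-!
# Counting separated directions, and sums over them
-/

open MeasureTheory Metric Set Module
open scoped ENNReal

namespace Pool.Agent.TH294.KT

/-- packing bound -/
theorem packing {F ι : Type*} [NormedAddCommGroup F] [NormedSpace ℝ F] [FiniteDimensional ℝ F]
    (J : Finset ι) (x : ι → F) (R η : ℝ) (hR : 0 < R) (hη : 0 < η) (h1 : ∀ j ∈ J, ‖x j‖ ≤ R)
    (h2 : ∀ j ∈ J, ∀ j' ∈ J, j ≠ j' → η ≤ ‖x j - x j'‖) :
    (J.card : ℝ) ≤ (1 + 2 * R / η) ^ (Module.finrank ℝ F) := by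
  borelize F
  let μ : Measure F := Measure.addHaar
  have hδ2 : 0 < η / 2 := by positivity
  have ρpos : 0 < R + η / 2 := by positivity
  set A := ⋃ j ∈ J, ball (x j) (η / 2) with hA
  have D : Set.Pairwise (J : Set ι) (Function.onFun Disjoint fun j => ball (x j) (η / 2)) := by
    rintro j hj j' hj' hjj
    apply ball_disjoint_ball
    rw [dist_eq_norm]
    have := h2 j hj j' hj' hjj
    linarith
  have A_subset : A ⊆ ball (0 : F) (R + η / 2) := by
    refine iUnion₂_subset fun j hj => ?_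
    apply ball_subset_ball'
    rw [dist_zero_right]
    have := h1 j hj
    linarith
  have I :
    (J.card : ℝ≥0∞) * ENNReal.ofReal ((η / 2) ^ finrank ℝ F) * μ (ball 0 1) ≤
      ENNReal.ofReal ((R + η / 2) ^ finrank ℝ F) * μ (ball 0 1) :=
    calc
      (J.card : ℝ≥0∞) * ENNReal.ofReal ((η / 2) ^ finrank ℝ F) * μ (ball 0 1) = μ A := by
        rw [hA, measure_biUnion_finset D fun c _ => measurableSet_ball]
        simp only [μ.addHaar_ball_of_pos _ hδ2]
        simp only [Finset.sum_const, nsmul_eq_mul, mul_assoc]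
      _ ≤ μ (ball (0 : F) (R + η / 2)) := measure_mono A_subset
      _ = ENNReal.ofReal ((R + η / 2) ^ finrank ℝ F) * μ (ball 0 1) := by
        simp only [μ.addHaar_ball_of_pos _ ρpos]
  have K1 : (J.card : ℝ≥0∞) * ENNReal.ofReal ((η / 2) ^ finrank ℝ F) ≤
      ENNReal.ofReal ((R + η / 2) ^ finrank ℝ F) :=
    (ENNReal.mul_le_mul_iff_left (measure_ball_pos _ _ zero_lt_one).ne' measure_ball_lt_top.ne).1 I
  have K : (J.card : ℝ) * (η / 2) ^ finrank ℝ F ≤ (R + η / 2) ^ finrank ℝ F := by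
    have := ENNReal.toReal_le_of_le_ofReal (pow_nonneg ρpos.le _) K1
    rwa [ENNReal.toReal_mul, ENNReal.toReal_natCast,
      ENNReal.toReal_ofReal (pow_nonneg hδ2.le _)] at this
  have h3 : (1 + 2 * R / η) ^ finrank ℝ F * (η / 2) ^ finrank ℝ F =
      (R + η / 2) ^ finrank ℝ F := by
    rw [← mul_pow]
    congr 1
    field_simp
    ring
  rw [← h3] at K
  exact le_of_mul_le_mul_right K (pow_pos hδ2 _)

/-- small caps -/
theorem small_cap {n : ℕ} (hn : 1 ≤ n) {ι : Type*} (J : Finset ι)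
    (e : ι → EuclideanSpace ℝ (Fin n)) (he : ∀ j ∈ J, ‖e j‖ = 1)
    (e0 : EuclideanSpace ℝ (Fin n)) (he0 : ‖e0‖ = 1) (δ s : ℝ) (hδ : 0 < δ) (hs : 0 < s)
    (hs2 : s ≤ 1 / 2) (hsep : ∀ j ∈ J, ∀ j' ∈ J, j ≠ j' → δ ≤ ‖e j - e j'‖)
    (hcap : ∀ j ∈ J, ‖e j - e0‖ ≤ s) : (J.card : ℝ) ≤ (1 + 4 * s / δ) ^ (n - 1) := by
  have : Fact (finrank ℝ (EuclideanSpace ℝ (Fin n)) = (n - 1) + 1) :=
    ⟨by rw [finrank_euclideanSpace, Fintype.card_fin]; omega⟩
  have he0' : e0 ≠ 0 := by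
    intro h; rw [h, norm_zero] at he0; exact zero_ne_one he0
  set W := (Submodule.span ℝ {e0})ᗮ with hW
  have hfr : finrank ℝ W = n - 1 := Submodule.finrank_orthogonal_span_singleton he0'
  -- the projection
  set π : EuclideanSpace ℝ (Fin n) → W := fun u => W.orthogonalProjectionOnto u with hπ
  have hdec : ∀ u : EuclideanSpace ℝ (Fin n), ((π u : W) : EuclideanSpace ℝ (Fin n)) =
      u - (inner ℝ e0 u) • e0 := by
    intro u
    have h1 : ((Submodule.span ℝ {e0}).starProjection u : EuclideanSpace ℝ (Fin n)) =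
        (inner ℝ e0 u) • e0 := Submodule.starProjection_unit_singleton ℝ he0 u
    have h2 : ((Submodule.span ℝ {e0})ᗮ).starProjection u =
        u - (Submodule.span ℝ {e0}).starProjection u := Submodule.starProjection_orthogonal_val u
    rw [← h1, ← h2]
    rfl
  have hnorm : ∀ u : EuclideanSpace ℝ (Fin n), ‖π u‖ ^ 2 = ‖u‖ ^ 2 - (inner ℝ e0 u) ^ 2 := by
    intro u
    have : ‖π u‖ = ‖u - (inner ℝ e0 u) • e0‖ := by rw [← hdec]; rfl
    rw [this, norm_sub_sq_real, inner_smul_right, norm_smul, he0, mul_one, Real.norm_eq_abs, sq_abs,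
      real_inner_comm]
    ring
  have hsub : ∀ u v, π u - π v = π (u - v) := fun u v => (map_sub W.orthogonalProjectionOnto u v).symm
  have hin : ∀ j ∈ J, 1 / 2 ≤ inner ℝ e0 (e j) := by
    intro j hj
    have h1 := hcap j hj
    have h2 : ‖e j - e0‖ ^ 2 = 2 - 2 * inner ℝ e0 (e j) := by
      rw [norm_sub_sq_real, he j hj, he0, real_inner_comm]; ring
    have h3 : ‖e j - e0‖ ^ 2 ≤ (1 / 2) ^ 2 := by gcongr; linarith
    nlinarith
  have hsmall : ∀ j ∈ J, ‖π (e j)‖ ≤ s := by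
    intro j hj
    have h1 : ‖π (e j)‖ ^ 2 ≤ ‖e j - e0‖ ^ 2 := by
      rw [hnorm, he j hj, norm_sub_sq_real, he j hj, he0, real_inner_comm (e j) e0]
      nlinarith [sq_nonneg (1 - inner ℝ (e j) e0 : ℝ)]
    have := (pow_le_pow_iff_left₀ (norm_nonneg _) (norm_nonneg _) two_ne_zero).mp h1
    exact this.trans (hcap j hj)
  have hlow : ∀ j ∈ J, ∀ j' ∈ J, j ≠ j' → δ / 2 ≤ ‖π (e j) - π (e j')‖ := by
    intro j hj j' hj' hjj
    have h0 := hsep j hj j' hj' hjj
    set p := inner ℝ e0 (e j) with hp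
    set p' := inner ℝ e0 (e j') with hp'
    have h1 : ‖π (e j) - π (e j')‖ ^ 2 = ‖e j - e j'‖ ^ 2 - (p - p') ^ 2 := by
      rw [hsub, hnorm, inner_sub_right]
    have h2 : ‖π (e j)‖ ^ 2 = 1 - p ^ 2 := by rw [hnorm, he j hj]; ring
    have h3 : ‖π (e j')‖ ^ 2 = 1 - p' ^ 2 := by rw [hnorm, he j' hj']; ring
    have h4 : |p - p'| * (p + p') ≤ ‖π (e j) - π (e j')‖ := by
      have h5 : |‖π (e j)‖ - ‖π (e j')‖| ≤ ‖π (e j) - π (e j')‖ := abs_norm_sub_norm_le _ _
      have h6 : |p - p'| * (p + p') = |‖π (e j')‖ - ‖π (e j)‖| * (‖π (e j')‖ + ‖π (e j)‖) := by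
        have hpp : 0 ≤ p + p' := by linarith [hin j hj, hin j' hj']
        rw [← abs_of_nonneg hpp, ← abs_mul, ← abs_of_nonneg (a := ‖π (e j')‖ + ‖π (e j)‖)
          (by positivity), ← abs_mul]
        congr 1
        nlinarith
      rw [h6, abs_sub_comm]
      have h7 : ‖π (e j')‖ + ‖π (e j)‖ ≤ 1 := by linarith [hsmall j hj, hsmall j' hj']
      calc |‖π (e j)‖ - ‖π (e j')‖| * (‖π (e j')‖ + ‖π (e j)‖)
          ≤ ‖π (e j) - π (e j')‖ * 1 := by gcongr
        _ = _ := mul_one _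
    have h8 : |p - p'| ≤ ‖π (e j) - π (e j')‖ := by
      have : |p - p'| * 1 ≤ |p - p'| * (p + p') := by
        gcongr; linarith [hin j hj, hin j' hj']
      linarith
    have h9 : (p - p') ^ 2 ≤ ‖π (e j) - π (e j')‖ ^ 2 := by
      rw [← sq_abs (p - p')]; gcongr
    have h10 : δ ^ 2 ≤ ‖e j - e j'‖ ^ 2 := by gcongr
    have h11 : (δ / 2) ^ 2 ≤ ‖π (e j) - π (e j')‖ ^ 2 := by nlinarith
    exact (pow_le_pow_iff_left₀ (by positivity) (norm_nonneg _) two_ne_zero).mp h11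
  have := packing J (fun j => π (e j)) s (δ / 2) hs (by positivity) hsmall hlow
  rw [hfr] at this
  have h12 : 2 * s / (δ / 2) = 4 * s / δ := by field_simp; ring
  rwa [h12] at this

/-- number of `δ`-separated directions in a cap -/
theorem cap_count (n : ℕ) (hn : 1 ≤ n) : ∃ K : ℝ, 0 < K ∧ ∀ (ι : Type) (J : Finset ι)
    (e : ι → EuclideanSpace ℝ (Fin n)) (e0 : EuclideanSpace ℝ (Fin n)) (δ s : ℝ), 0 < δ → δ ≤ s →
    (∀ j ∈ J, ‖e j‖ = 1) → ‖e0‖ = 1 → (∀ j ∈ J, ∀ j' ∈ J, j ≠ j' → δ ≤ ‖e j - e j'‖) →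
    (∀ j ∈ J, ‖e j - e0‖ ≤ s) → (J.card : ℝ) ≤ K * (s / δ) ^ (n - 1) := by
  classical
  obtain ⟨t, hts, hfin, hcov⟩ := (isCompact_sphere (0 : EuclideanSpace ℝ (Fin n)) 1).finite_cover_balls
    (by norm_num : (0 : ℝ) < 1 / 2)
  set G := hfin.toFinset with hG
  refine ⟨5 ^ (n - 1) * (G.card + 1), by positivity, ?_⟩
  intro ι J e e0 δ s hδ hs he he0 hsep hcap
  have hs0 : 0 < s := hδ.trans_le hs
  have hsd : 1 ≤ s / δ := by rw [le_div_iff₀ hδ]; linarith
  rcases le_or_gt s (1 / 2) with h | h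
  · have h1 := small_cap hn J e he e0 he0 δ s hδ hs0 h hsep hcap
    refine h1.trans ?_
    calc (1 + 4 * s / δ) ^ (n - 1) ≤ (5 * (s / δ)) ^ (n - 1) := by
          gcongr
          have : 4 * s / δ = 4 * (s / δ) := by ring
          rw [this]; linarith
      _ = 5 ^ (n - 1) * 1 * (s / δ) ^ (n - 1) := by rw [mul_pow]; ring
      _ ≤ 5 ^ (n - 1) * (G.card + 1) * (s / δ) ^ (n - 1) := by
          gcongr
          have : (0 : ℝ) ≤ G.card := by positivity
          linarith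
  · -- cover by caps of radius `1/2`
    have hsubs : J ⊆ G.biUnion fun g => J.filter fun j => ‖e j - g‖ ≤ 1 / 2 := by
      intro j hj
      have hj1 : e j ∈ sphere (0 : EuclideanSpace ℝ (Fin n)) 1 := by
        rw [mem_sphere, dist_zero_right]; exact he j hj
      have := hcov hj1
      simp only [mem_iUnion] at this
      obtain ⟨g, hg, hjg⟩ := this
      rw [mem_ball, dist_eq_norm] at hjg
      rw [Finset.mem_biUnion]
      exact ⟨g, hfin.mem_toFinset.mpr hg, Finset.mem_filter.mpr ⟨hj, hjg.le⟩⟩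
    have hone : ∀ g ∈ G, (((J.filter fun j => ‖e j - g‖ ≤ 1 / 2).card : ℕ) : ℝ) ≤
        5 ^ (n - 1) * (s / δ) ^ (n - 1) := by
      intro g hg
      have hg1 : ‖g‖ = 1 := by
        have := hts (hfin.mem_toFinset.mp hg)
        rwa [mem_sphere, dist_zero_right] at this
      have h1 := small_cap hn (J.filter fun j => ‖e j - g‖ ≤ 1 / 2) e
        (fun j hj => he j (Finset.mem_filter.mp hj).1) g hg1 δ (1 / 2) hδ (by norm_num) le_rfl
        (fun j hj j' hj' hjj => hsep j (Finset.mem_filter.mp hj).1 j' (Finset.mem_filter.mp hj').1 hjj)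
        (fun j hj => (Finset.mem_filter.mp hj).2)
      refine h1.trans ?_
      rw [← mul_pow]
      gcongr
      have h2 : 4 * (1 / 2) / δ ≤ 4 * (s / δ) := by
        have h3 : 4 * (1 / 2) / δ = 4 * ((1 / 2) / δ) := by ring
        rw [h3]; gcongr
      linarith
    calc (J.card : ℝ) ≤ ((G.biUnion fun g => J.filter fun j => ‖e j - g‖ ≤ 1 / 2).card : ℝ) := by
          exact_mod_cast Finset.card_le_card hsubs
      _ ≤ ((∑ g ∈ G, (J.filter fun j => ‖e j - g‖ ≤ 1 / 2).card : ℕ) : ℝ) := by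
          exact_mod_cast Finset.card_biUnion_le
      _ = ∑ g ∈ G, ((J.filter fun j => ‖e j - g‖ ≤ 1 / 2).card : ℝ) := by push_cast; rfl
      _ ≤ ∑ g ∈ G, 5 ^ (n - 1) * (s / δ) ^ (n - 1) := Finset.sum_le_sum hone
      _ = G.card * (5 ^ (n - 1) * (s / δ) ^ (n - 1)) := by rw [Finset.sum_const, nsmul_eq_mul]
      _ ≤ (G.card + 1) * (5 ^ (n - 1) * (s / δ) ^ (n - 1)) := by gcongr; linarith
      _ = 5 ^ (n - 1) * (G.card + 1) * (s / δ) ^ (n - 1) := by ring

end Pool.Agent.TH294.KT
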