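import Pool.Agent.TH294.KT.Geom

/-!
# Covering the set of bad differences
-/

open MeasureTheory Metric Set Module
open scoped ENNReal

namespace Pool.Agent.TH294.KT

theorem unit_cover (n : ℕ) : ∃ G : Finset (EuclideanSpace ℝ (Fin n)),
    ∀ x : EuclideanSpace ℝ (Fin n), ‖x‖ ≤ 6 → ∃ g ∈ G, ‖x - g‖ ≤ 1 := by
  obtain ⟨t, -, hfin, hcov⟩ := (isCompact_closedBall (0 : EuclideanSpace ℝ (Fin n)) 6).finite_cover_balls
    (zero_lt_one)
  refine ⟨hfin.toFinset, fun x hx => ?_⟩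
  have hx' : x ∈ closedBall (0 : EuclideanSpace ℝ (Fin n)) 6 := by
    rw [mem_closedBall, dist_zero_right]; exact hx
  have := hcov hx'
  simp only [mem_iUnion] at this
  obtain ⟨g, hg, hxg⟩ := this
  refine ⟨g, hfin.mem_toFinset.mpr hg, ?_⟩
  rw [mem_ball, dist_eq_norm] at hxg
  exact hxg.le

/-- every unit vector `e'` is a combination of `e` and of a vector orthogonal to `e`, of norm one or
zero -/
theorem orth_dec {n : ℕ} (e e' : EuclideanSpace ℝ (Fin n)) (he : ‖e‖ = 1) :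
    ∃ (f : EuclideanSpace ℝ (Fin n)) (c d : ℝ), inner ℝ e f = 0 ∧ (‖f‖ = 1 ∨ f = 0) ∧
      e' = c • e + d • f := by
  set g := e' - (inner ℝ e e') • e with hg
  have hin : inner ℝ e g = 0 := by
    rw [hg, inner_sub_right, inner_smul_right, real_inner_self_eq_norm_sq, he]; ring
  by_cases h0 : g = 0
  · refine ⟨0, inner ℝ e e', 0, by simp, Or.inr rfl, ?_⟩
    rw [smul_zero, add_zero]
    exact sub_eq_zero.mp h0
  · have hgn : ‖g‖ ≠ 0 := norm_ne_zero_iff.mpr h0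
    refine ⟨(‖g‖)⁻¹ • g, inner ℝ e e', ‖g‖, ?_, Or.inl ?_, ?_⟩
    · rw [inner_smul_right, hin, mul_zero]
    · rw [norm_smul, norm_inv, norm_norm, inv_mul_cancel₀ hgn]
    · rw [smul_smul, mul_inv_cancel₀ hgn, one_smul, hg]; abel

/-- a point in the `4δ`-neighbourhood of the plane, coordinates -/
theorem plane_coord {n : ℕ} {e f ζ : EuclideanSpace ℝ (Fin n)} (he : ‖e‖ = 1)
    (hf : ‖f‖ = 1 ∨ f = 0) (hef : inner ℝ e f = 0) {R η : ℝ} (hR : ‖ζ‖ ≤ R)
    {α β : ℝ} (h : ‖ζ - (α • e + β • f)‖ ≤ η) :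
    |α| ≤ R + η ∧ ∃ β' : ℝ, |β'| ≤ R + η ∧ ‖ζ - (α • e + β' • f)‖ ≤ η := by
  have hx : ‖α • e + β • f‖ ≤ R + η := by
    have : α • e + β • f = ζ - (ζ - (α • e + β • f)) := by abel
    rw [this]
    exact (norm_sub_le _ _).trans (by linarith)
  have h0 : 0 ≤ R + η := (norm_nonneg _).trans hx
  have hα : |α| ≤ R + η := by
    have h1 : inner ℝ e (α • e + β • f) = α := by
      rw [inner_add_right, inner_smul_right, inner_smul_right, hef, real_inner_self_eq_norm_sq, he]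
      ring
    have h2 := abs_real_inner_le_norm e (α • e + β • f)
    rw [h1, he, one_mul] at h2
    exact h2.trans hx
  refine ⟨hα, ?_⟩
  rcases hf with hf | hf
  · refine ⟨β, ?_, h⟩
    have h1 : inner ℝ f (α • e + β • f) = β := by
      rw [inner_add_right, inner_smul_right, inner_smul_right, real_inner_comm, hef,
        real_inner_self_eq_norm_sq, hf]
      ring
    have h2 := abs_real_inner_le_norm f (α • e + β • f)
    rw [h1, hf, one_mul] at h2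
    exact h2.trans hx
  · refine ⟨0, by rw [abs_zero]; exact h0, ?_⟩
    rw [hf, smul_zero] at h ⊢
    exact h

/-- covering of the differences of size at most `ρ` of two tubes -/
theorem diff_cover (n : ℕ) : ∃ c : ℝ, 0 < c ∧ ∀ (δ ρ : ℝ) (D e e' : EuclideanSpace ℝ (Fin n)),
    0 < δ → δ ≤ ρ → ‖e‖ = 1 → ‖e'‖ = 1 → ∃ F : Finset (EuclideanSpace ℝ (Fin n)),
      (F.card : ℝ) ≤ c * (ρ / δ) ^ 2 ∧
      ∀ (ζ : EuclideanSpace ℝ (Fin n)) (s t : ℝ), ‖ζ‖ ≤ ρ →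
        ‖ζ - (D + t • e' - s • e)‖ ≤ 2 * δ → ∃ p ∈ F, ‖ζ - p‖ ≤ δ := by
  classical
  obtain ⟨G, hG⟩ := unit_cover n
  refine ⟨15 ^ 2 * (G.card + 1), by positivity, ?_⟩
  intro δ ρ D e e' hδ hρ he he'
  by_cases hex : ∃ (ζ : EuclideanSpace ℝ (Fin n)) (s t : ℝ), ‖ζ‖ ≤ ρ ∧
      ‖ζ - (D + t • e' - s • e)‖ ≤ 2 * δ
  swap
  · refine ⟨∅, by simp; positivity, ?_⟩
    intro ζ s t h1 h2
    exact absurd ⟨ζ, s, t, h1, h2⟩ hex
  obtain ⟨ζ0, s0, t0, hζ0, hd0⟩ := hex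
  obtain ⟨f, c, d, hef, hf, hdec⟩ := orth_dec e e' he
  have hδρ : 1 ≤ ρ / δ := by rw [le_div_iff₀ hδ]; linarith
  set L : ℝ := 6 * ρ with hL
  set I := Finset.Icc (-(⌊L / δ⌋ + 1)) (⌊L / δ⌋ + 1) with hI
  have hρ0 : 0 < ρ := hδ.trans_le hρ
  have hIc := card_Icc_le (L / δ) (by rw [hL]; positivity)
  rw [← hI] at hIc
  have hIc' : (I.card : ℝ) ≤ 15 * (ρ / δ) := by
    have : L / δ = 6 * (ρ / δ) := by rw [hL]; ring
    rw [this] at hIc
    linarith
  refine ⟨((I ×ˢ I) ×ˢ G).image fun x => ζ0 + (((x.1.1 : ℝ) * δ) • e + ((x.1.2 : ℝ) * δ) • f) +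
    δ • x.2, ?_, ?_⟩
  · calc ((((I ×ˢ I) ×ˢ G).image fun x => ζ0 + (((x.1.1 : ℝ) * δ) • e + ((x.1.2 : ℝ) * δ) • f) +
        δ • x.2).card : ℝ) ≤ (((I ×ˢ I) ×ˢ G).card : ℝ) := by exact_mod_cast Finset.card_image_le
      _ = (I.card : ℝ) * I.card * G.card := by
          rw [Finset.card_product, Finset.card_product]; push_cast; ring
      _ ≤ (15 * (ρ / δ)) * (15 * (ρ / δ)) * (G.card + 1) := by gcongr; linarith
      _ = 15 ^ 2 * (G.card + 1) * (ρ / δ) ^ 2 := by ring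
  · intro ζ s t hζ hd
    -- difference
    have h1 : ‖(ζ - ζ0) - (((t - t0) * c - (s - s0)) • e + ((t - t0) * d) • f)‖ ≤ 4 * δ := by
      have h2 : (ζ - ζ0) - (((t - t0) * c - (s - s0)) • e + ((t - t0) * d) • f) =
          (ζ - (D + t • e' - s • e)) - (ζ0 - (D + t0 • e' - s0 • e)) := by
        rw [hdec]; module
      rw [h2]
      exact (norm_sub_le _ _).trans (by linarith)
    have h3 : ‖ζ - ζ0‖ ≤ 2 * ρ := (norm_sub_le _ _).trans (by linarith)
    obtain ⟨hα, β, hβ, h4⟩ := plane_coord he hf hef h3 h1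
    set α := (t - t0) * c - (s - s0) with hαdef
    have hα' : |α| ≤ L := hα.trans (by rw [hL]; linarith)
    have hβ' : |β| ≤ L := hβ.trans (by rw [hL]; linarith)
    obtain ⟨k, hk, hk'⟩ := int_approx α δ L hδ hα'
    obtain ⟨l, hl, hl'⟩ := int_approx β δ L hδ hβ'
    have h5 : ‖(ζ - ζ0) - (((k : ℝ) * δ) • e + ((l : ℝ) * δ) • f)‖ ≤ 6 * δ := by
      have h6 : (ζ - ζ0) - (((k : ℝ) * δ) • e + ((l : ℝ) * δ) • f) =
          ((ζ - ζ0) - (α • e + β • f)) + ((α - k * δ) • e + (β - l * δ) • f) := by module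
      have h7 : ‖(α - k * δ) • e + (β - l * δ) • f‖ ≤ 2 * δ := by
        refine (norm_add_le _ _).trans ?_
        rw [norm_smul, norm_smul, he, Real.norm_eq_abs, Real.norm_eq_abs]
        have : ‖f‖ ≤ 1 := by
          rcases hf with h | h
          · exact h.le
          · rw [h, norm_zero]; exact zero_le_one
        have h8 : |β - l * δ| * ‖f‖ ≤ δ * 1 := by gcongr
        linarith
      rw [h6]
      exact (norm_add_le _ _).trans (by linarith)
    set w := (ζ - ζ0) - (((k : ℝ) * δ) • e + ((l : ℝ) * δ) • f) with hw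
    obtain ⟨g, hg, hg'⟩ := hG (δ⁻¹ • w) (by
      rw [norm_smul, norm_inv, Real.norm_of_nonneg hδ.le, inv_mul_le_iff₀ hδ]
      linarith)
    refine ⟨_, Finset.mem_image.mpr ⟨((k, l), g), by
      simp only [Finset.mem_product]; exact ⟨⟨hk, hl⟩, hg⟩, rfl⟩, ?_⟩
    have h9 : ζ - (ζ0 + (((k : ℝ) * δ) • e + ((l : ℝ) * δ) • f) + δ • g) = δ • (δ⁻¹ • w - g) := by
      rw [smul_sub, smul_smul, mul_inv_cancel₀ hδ.ne', one_smul, hw]
      abel
    simp only
    rw [h9, norm_smul, Real.norm_of_nonneg hδ.le]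
    calc δ * ‖δ⁻¹ • w - g‖ ≤ δ * 1 := by gcongr
      _ = δ := mul_one δ

end Pool.Agent.TH294.KT
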