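import Pool.Agent.TH294.KT.Lips

/-!
# Existence of good translations, and the exponents of the conjecture
-/

open MeasureTheory Metric Set Module ProbabilityTheory
open scoped ENNReal

namespace Pool.Agent.TH294.KT

theorem one_add_rpow_le (x t : ℝ) (hx : 0 ≤ x) (h0 : 0 ≤ t) (h1 : t ≤ 1) :
    (1 + x) ^ t ≤ 1 + x ^ t := by
  have := Real.rpow_add_le_add_rpow (zero_le_one) hx h0 h1
  simpa using this

/-- exponents for translations -/
theorem expo (n : ℕ) (hn : 3 ≤ n) (m q A t : ℝ) (hm : 1 ≤ m) (hq1 : (n : ℝ) / (n - 1) ≤ q)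
    (hq2 : q ≤ 2) (hA : 1 ≤ A) (ht : 0 ≤ t) :
    m * (1 + A * t * m ^ (1 - 1 / ((n : ℝ) - 1))) ^ (q - 1) ≤
      A * m ^ (q - 1 / ((n : ℝ) - 1)) * (1 + t ^ (q - 1) * m ^ ((2 - q) / ((n : ℝ) - 1))) := by
  have hn3 : (3 : ℝ) ≤ n := by exact_mod_cast hn
  have hd : (0 : ℝ) < (n : ℝ) - 1 := by linarith
  have hm0 : 0 < m := by linarith
  have hq : 1 + 1 / ((n : ℝ) - 1) ≤ q := by
    have : (n : ℝ) / (n - 1) = 1 + 1 / ((n : ℝ) - 1) := by field_simp; ring
    rw [← this]; exact hq1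
  have hinv : 0 < 1 / ((n : ℝ) - 1) := by positivity
  have hA1 : A ^ (q - 1) ≤ A := by
    calc A ^ (q - 1) ≤ A ^ (1 : ℝ) := Real.rpow_le_rpow_of_exponent_le hA (by linarith)
      _ = A := Real.rpow_one A
  have h1 : (1 + A * t * m ^ (1 - 1 / ((n : ℝ) - 1))) ^ (q - 1) ≤
      1 + (A * t * m ^ (1 - 1 / ((n : ℝ) - 1))) ^ (q - 1) :=
    one_add_rpow_le _ _ (by positivity) (by linarith) (by linarith)
  have h2 : (A * t * m ^ (1 - 1 / ((n : ℝ) - 1))) ^ (q - 1) =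
      A ^ (q - 1) * t ^ (q - 1) * m ^ ((1 - 1 / ((n : ℝ) - 1)) * (q - 1)) := by
    rw [Real.mul_rpow (by positivity) (by positivity), Real.mul_rpow (by linarith) ht,
      ← Real.rpow_mul hm0.le]
  have h3 : m * m ^ ((1 - 1 / ((n : ℝ) - 1)) * (q - 1)) =
      m ^ (q - 1 / ((n : ℝ) - 1)) * m ^ ((2 - q) / ((n : ℝ) - 1)) := by
    rw [← Real.rpow_add hm0]
    nth_rw 1 [← Real.rpow_one m]
    rw [← Real.rpow_add hm0]
    congr 1
    field_simp
    ring
  have h4 : m ≤ m ^ (q - 1 / ((n : ℝ) - 1)) := by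
    nth_rw 1 [← Real.rpow_one m]
    exact Real.rpow_le_rpow_of_exponent_le hm (by linarith)
  calc m * (1 + A * t * m ^ (1 - 1 / ((n : ℝ) - 1))) ^ (q - 1)
      ≤ m * (1 + A ^ (q - 1) * t ^ (q - 1) * m ^ ((1 - 1 / ((n : ℝ) - 1)) * (q - 1))) := by
        rw [← h2]; gcongr
    _ = m + A ^ (q - 1) * t ^ (q - 1) * (m * m ^ ((1 - 1 / ((n : ℝ) - 1)) * (q - 1))) := by ring
    _ = m + A ^ (q - 1) * t ^ (q - 1) *
        (m ^ (q - 1 / ((n : ℝ) - 1)) * m ^ ((2 - q) / ((n : ℝ) - 1))) := by rw [h3]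
    _ ≤ A * m ^ (q - 1 / ((n : ℝ) - 1)) + A * t ^ (q - 1) *
        (m ^ (q - 1 / ((n : ℝ) - 1)) * m ^ ((2 - q) / ((n : ℝ) - 1))) := by
        have h5 : m ≤ A * m ^ (q - 1 / ((n : ℝ) - 1)) := by
          calc m ≤ 1 * m ^ (q - 1 / ((n : ℝ) - 1)) := by rw [one_mul]; exact h4
            _ ≤ _ := by gcongr
        gcongr
    _ = _ := by ring

/-- existence of good translations -/
theorem exist_gen (n : ℕ) (hn : 3 ≤ n) : ∃ C : ℝ, 0 < C ∧ ∀ (δ : ℝ), 0 < δ → δ < 1 →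
    ∀ (ι : Type) [Fintype ι] (a e : ι → EuclideanSpace ℝ (Fin n)),
    (∀ i, ‖e i‖ = 1) → (∀ i j, i ≠ j → δ ≤ ‖e i - e j‖) →
    ∀ (r A κ q : ℝ), 0 < r → 1 ≤ A → 2 ≤ κ → κ ≤ n → 1 ≤ q → q ≤ 2 →
    ∀ (μ : Measure (EuclideanSpace ℝ (Fin n))) [IsProbabilityMeasure μ]
    (Z : Set (EuclideanSpace ℝ (Fin n))), Z ⊆ closedBall 0 r → μ Zᶜ = 0 →
    (∀ x, μ (closedBall x δ) ≤ ENNReal.ofReal (A * (δ / r) ^ κ)) →
    ∃ η : ι → EuclideanSpace ℝ (Fin n), (∀ i, η i ∈ Z) ∧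
    energy q δ (fun i => a i + η i) e ≤ ENNReal.ofReal (C * δ ^ (n - 1) * (Fintype.card ι : ℝ) *
      (1 + A * (δ / r) ^ (κ - 2) * (Fintype.card ι : ℝ) ^ (1 - 1 / ((n : ℝ) - 1))) ^ (q - 1)) := by
  classical
  obtain ⟨C, hC, H⟩ := transl_maj n hn
  refine ⟨C, hC, ?_⟩
  intro δ hδ hδ1 ι _ a e he hsep r A κ q hr hA hκ hκn hq1 hq2 μ _ Z hZ hμZ hμ
  set tr : EuclideanSpace ℝ (Fin n) → EuclideanSpace ℝ (Fin n) := fun u => if ‖u‖ ≤ r then u else 0
    with htr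
  have htrm : Measurable tr :=
    Measurable.ite (measurableSet_le measurable_norm measurable_const) measurable_id measurable_const
  set ξ : ι → (ι → EuclideanSpace ℝ (Fin n)) → EuclideanSpace ℝ (Fin n) := fun i ω => tr (ω i) with hξ
  have hξm : ∀ i, Measurable (ξ i) := fun i => htrm.comp (measurable_pi_apply i)
  have hξb : ∀ i ω, ‖ξ i ω‖ ≤ r := by
    intro i ω
    simp only [hξ, htr]
    split_ifs with h
    · exact h
    · rw [norm_zero]; exact hr.le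
  have hind : ∀ i j, i ≠ j → IndepFun (ξ i) (ξ j) (Measure.pi fun _ : ι => μ) := by
    intro i j hij
    have := iIndepFun_pi (μ := fun _ : ι => μ) (X := fun _ : ι => tr) (fun _ => htrm.aemeasurable)
    exact this.indepFun hij
  have hball : ∀ i x, (Measure.pi fun _ : ι => μ) {ω | ‖ξ i ω - x‖ ≤ δ} ≤
      ENNReal.ofReal (A * (δ / r) ^ κ) := by
    intro i x
    have hmp := measurePreserving_eval (fun _ : ι => μ) i
    have hms : MeasurableSet {u : EuclideanSpace ℝ (Fin n) | ‖tr u - x‖ ≤ δ} :=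
      measurableSet_le (htrm.sub_const x).norm measurable_const
    have h1 : (Measure.pi fun _ : ι => μ) {ω | ‖ξ i ω - x‖ ≤ δ} =
        μ {u : EuclideanSpace ℝ (Fin n) | ‖tr u - x‖ ≤ δ} := by
      rw [← hmp.measure_preimage hms.nullMeasurableSet]
      rfl
    rw [h1]
    have h2 : {u : EuclideanSpace ℝ (Fin n) | ‖tr u - x‖ ≤ δ} ⊆ closedBall x δ ∪ Zᶜ := by
      intro u hu
      by_cases huZ : u ∈ Z
      · left
        have hur : ‖u‖ ≤ r := by
          have := hZ huZ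
          rwa [mem_closedBall, dist_zero_right] at this
        have : tr u = u := by simp only [htr]; rw [if_pos hur]
        rw [mem_closedBall, dist_eq_norm]
        rw [Set.mem_ofPred_eq, this] at hu
        exact hu
      · right; exact huZ
    refine (measure_mono h2).trans ((measure_union_le _ _).trans ?_)
    rw [hμZ, add_zero]
    exact hμ x
  obtain ⟨Y, hY1, hY2, hY3⟩ := H δ hδ hδ1 ι a e he hsep r A κ q hr hA hκ hκn hq1 hq2 _
    (Measure.pi fun _ : ι => μ) ξ hξm hξb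
    (fun i j hij x => diff_ball _ (ξ i) (ξ j) (hξm i) (hξm j) (hind i j hij) δ _ (hball i) x)
  have hnull : (Measure.pi fun _ : ι => μ) {ω | ∃ i, ω i ∉ Z} = 0 := by
    have : {ω : ι → EuclideanSpace ℝ (Fin n) | ∃ i, ω i ∉ Z} = ⋃ i, Function.eval i ⁻¹' Zᶜ := by
      ext ω; simp
    rw [this]
    exact measure_iUnion_null fun i => (Measure.quasiMeasurePreserving_eval _ i).preimage_null hμZ
  obtain ⟨ω, hω, hYω⟩ := exists_notMem_null_le_lintegral hY1.aemeasurable hnull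
  have hωZ : ∀ i, ω i ∈ Z := by
    intro i
    by_contra h
    exact hω ⟨i, h⟩
  refine ⟨ω, hωZ, ?_⟩
  have hξω : ∀ i, ξ i ω = ω i := by
    intro i
    have := hZ (hωZ i)
    rw [mem_closedBall, dist_zero_right] at this
    simp only [hξ, htr]
    rw [if_pos this]
  have h := hY2 ω
  simp only [hξω] at h
  exact h.trans (hYω.trans hY3)

/-- the uniform law of a ball -/
theorem ball_law (n : ℕ) (r : ℝ) (hr : 0 < r) :
    ∃ μ : Measure (EuclideanSpace ℝ (Fin n)), IsProbabilityMeasure μ ∧ μ (closedBall 0 r)ᶜ = 0 ∧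
      ∀ (x : EuclideanSpace ℝ (Fin n)) (δ : ℝ), 0 < δ →
        μ (closedBall x δ) ≤ ENNReal.ofReal ((δ / r) ^ (n : ℝ)) := by
  have hv0 : volume (closedBall (0 : EuclideanSpace ℝ (Fin n)) r) ≠ 0 :=
    (measure_closedBall_pos _ _ hr).ne'
  have hvt : volume (closedBall (0 : EuclideanSpace ℝ (Fin n)) r) ≠ ⊤ := measure_closedBall_lt_top.ne
  refine ⟨cond volume (closedBall 0 r), cond_isProbabilityMeasure_of_finite hv0 hvt, ?_, ?_⟩
  · rw [cond_apply measurableSet_closedBall]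
    simp
  · intro x δ hδ
    rw [cond_apply measurableSet_closedBall]
    refine (mul_le_mul_right (measure_mono Set.inter_subset_right) _).trans ?_
    rw [Measure.addHaar_closedBall _ _ hr.le, Measure.addHaar_closedBall _ _ hδ.le,
      finrank_euclideanSpace, Fintype.card_fin]
    set v := volume (ball (0 : EuclideanSpace ℝ (Fin n)) 1) with hv
    have hv0' : v ≠ 0 := (measure_ball_pos _ _ one_pos).ne'
    have hvt' : v ≠ ⊤ := measure_ball_lt_top.ne
    have hr0 : ENNReal.ofReal (r ^ n) ≠ 0 := by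
      rw [Ne, ENNReal.ofReal_eq_zero, not_le]; positivity
    rw [ENNReal.mul_inv (Or.inl hr0) (Or.inl ENNReal.ofReal_ne_top)]
    have h1 : (ENNReal.ofReal (r ^ n))⁻¹ * v⁻¹ * (ENNReal.ofReal (δ ^ n) * v) =
        (ENNReal.ofReal (r ^ n))⁻¹ * ENNReal.ofReal (δ ^ n) * (v⁻¹ * v) := by ring
    rw [h1, ENNReal.inv_mul_cancel hv0' hvt', mul_one, ← ENNReal.ofReal_inv_of_pos (by positivity),
      ← ENNReal.ofReal_mul (by positivity)]
    apply ENNReal.ofReal_le_ofReal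
    rw [Real.rpow_natCast, div_pow, div_eq_mul_inv, mul_comm]

end Pool.Agent.TH294.KT
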