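import Pool.Agent.TH294.KT.Exist

/-!
# Small random perturbations of families of tubes: final forms
-/

open MeasureTheory Metric Set Module ProbabilityTheory
open scoped ENNReal

namespace Pool.Agent.TH294.KT

/-- The directions `e i` are unit vectors and `δ`-separated, `0 < δ < 1`. -/
def Sep {n : ℕ} {ι : Type} (δ : ℝ) (e : ι → EuclideanSpace ℝ (Fin n)) : Prop :=
  0 < δ ∧ δ < 1 ∧ (∀ i, ‖e i‖ = 1) ∧ ∀ i j, i ≠ j → δ ≤ ‖e i - e j‖

/-- The random vector `ζ` is in any given closed ball of radius `δ` with probability at most `b`. -/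
def Spread {n : ℕ} {Ω : Type} [MeasurableSpace Ω] (P : Measure Ω) (ζ : Ω → EuclideanSpace ℝ (Fin n))
    (δ b : ℝ) : Prop :=
  ∀ x : EuclideanSpace ℝ (Fin n), P {ω | ‖ζ ω - x‖ ≤ δ} ≤ ENNReal.ofReal b

theorem part_one (n : ℕ) (hn : 3 ≤ n) :
    ∃ C : ℝ, 0 < C ∧ ∀ (ι : Type) [Fintype ι] (δ : ℝ) (a e : ι → EuclideanSpace ℝ (Fin n)), Sep δ e →
      ∀ (r A κ q : ℝ), 0 < r → 1 ≤ A → 2 ≤ κ → κ ≤ n → (n : ℝ) / (n - 1) ≤ q → q ≤ 2 →
      ∀ (Ω : Type) [MeasurableSpace Ω] (P : Measure Ω) [IsProbabilityMeasure P]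
      (ξ : ι → Ω → EuclideanSpace ℝ (Fin n)), (∀ i, Measurable (ξ i)) → (∀ i ω, ‖ξ i ω‖ ≤ r) →
      ((∀ i j, i ≠ j → Spread P (fun ω => ξ i ω - ξ j ω) δ (A * (δ / r) ^ κ)) ∨
        ((∀ i j, i ≠ j → IndepFun (ξ i) (ξ j) P) ∧ ∀ i, Spread P (ξ i) δ (A * (δ / r) ^ κ))) →
      ∫⁻ ω, energy q δ (fun i => a i + ξ i ω) e ∂P ≤
        ENNReal.ofReal (C * A * δ ^ (n - 1) * (Fintype.card ι : ℝ) ^ (q - 1 / ((n : ℝ) - 1)) *
          (1 + (δ / r) ^ ((κ - 2) * (q - 1)) * (Fintype.card ι : ℝ) ^ ((2 - q) / ((n : ℝ) - 1)))) := by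
  obtain ⟨C, hC, H⟩ := transl_maj n hn
  have hn3 : (3 : ℝ) ≤ n := by exact_mod_cast hn
  refine ⟨C, hC, ?_⟩
  intro ι _ δ a e ⟨hδ, hδ1, he, hsep⟩ r A κ q hr hA hκ hκn hq1 hq2 Ω _ P _ ξ hξ hbd hcases
  have hq1' : 1 ≤ q := by
    refine le_trans ?_ hq1
    rw [le_div_iff₀ (by linarith)]; linarith
  have hdr : 0 < δ / r := by positivity
  have hP : ∀ i j, i ≠ j → ∀ x, P {ω | ‖ξ i ω - ξ j ω - x‖ ≤ δ} ≤ ENNReal.ofReal (A * (δ / r) ^ κ) := by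
    rcases hcases with h | ⟨h1, h2⟩
    · intro i j hij x
      exact h i j hij x
    · intro i j hij x
      exact diff_ball P (ξ i) (ξ j) (hξ i) (hξ j) (h1 i j hij) δ _ (h2 i) x
  rcases Nat.eq_zero_or_pos (Fintype.card ι) with h0 | hpos
  · refine le_trans (le_of_eq ?_) (zero_le (a := ENNReal.ofReal _))
    simp_rw [energy_empty h0 q δ (by linarith : 0 < q)]
    simp
  have hm1 : (1 : ℝ) ≤ (Fintype.card ι : ℝ) := by exact_mod_cast hpos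
  obtain ⟨Y, hY1, hY2, hY3⟩ := H δ hδ hδ1 ι a e he hsep r A κ q hr hA hκ hκn hq1' hq2 Ω P ξ hξ hbd hP
  refine (lintegral_mono hY2).trans (hY3.trans (ENNReal.ofReal_le_ofReal ?_))
  have h := expo n hn (Fintype.card ι : ℝ) q A ((δ / r) ^ (κ - 2)) hm1 hq1 hq2 hA (by positivity)
  rw [← Real.rpow_mul hdr.le] at h
  have hc : 0 ≤ C * δ ^ (n - 1) := by positivity
  calc C * δ ^ (n - 1) * (Fintype.card ι : ℝ) *
        (1 + A * (δ / r) ^ (κ - 2) * (Fintype.card ι : ℝ) ^ (1 - 1 / ((n : ℝ) - 1))) ^ (q - 1)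
      = C * δ ^ (n - 1) * ((Fintype.card ι : ℝ) *
        (1 + A * (δ / r) ^ (κ - 2) * (Fintype.card ι : ℝ) ^ (1 - 1 / ((n : ℝ) - 1))) ^ (q - 1)) := by
        ring
    _ ≤ C * δ ^ (n - 1) * (A * (Fintype.card ι : ℝ) ^ (q - 1 / ((n : ℝ) - 1)) *
        (1 + (δ / r) ^ ((κ - 2) * (q - 1)) * (Fintype.card ι : ℝ) ^ ((2 - q) / ((n : ℝ) - 1)))) :=
        mul_le_mul_of_nonneg_left h hc
    _ = _ := by ring

theorem part_two (n : ℕ) (hn : 3 ≤ n) (q : ℝ) (hq1 : (n : ℝ) / (n - 1) < q) (hq2 : q ≤ 2) :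
    ∃ C : ℝ, 0 < C ∧ ∀ (ι : Type) [Fintype ι] (δ : ℝ) (a e : ι → EuclideanSpace ℝ (Fin n)), Sep δ e →
      ∀ (r A κ : ℝ), 0 < r → r ≤ 1 → 1 ≤ A → 2 ≤ κ → κ ≤ n → κ / (κ - 1) ≤ q →
      ∀ (Ω : Type) [MeasurableSpace Ω] (P : Measure Ω) [IsProbabilityMeasure P]
      (ξ : ι → Ω → EuclideanSpace ℝ (Fin n)), (∀ i, Measurable (ξ i)) →
      (∀ i j ω, ‖ξ i ω - ξ j ω‖ ≤ r * ‖e i - e j‖) →
      (∀ i j, i ≠ j → Spread P (fun ω => ξ i ω - ξ j ω) δ (A * (δ / (r * ‖e i - e j‖)) ^ κ)) →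
      ∫⁻ ω, energy q δ (fun i => a i + ξ i ω) e ∂P ≤
        ENNReal.ofReal (C * A * r ^ (-((κ - 2) * (q - 1))) * δ ^ (n - 1) *
          (Fintype.card ι : ℝ) ^ (q - 1 / ((n : ℝ) - 1))) := by
  obtain ⟨C, hC, H⟩ := lips_maj n hn
  have hn3 : (3 : ℝ) ≤ n := by exact_mod_cast hn
  have hd : (0 : ℝ) < (n : ℝ) - 1 := by linarith
  have hqn : 1 + 1 / ((n : ℝ) - 1) < q := by
    have : (n : ℝ) / (n - 1) = 1 + 1 / ((n : ℝ) - 1) := by field_simp; ring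
    rw [← this]; exact hq1
  have hinv : 0 < 1 / ((n : ℝ) - 1) := by positivity
  have hq0 : 0 < q - 1 := by linarith
  set γ : ℝ := 1 / ((q - 1) * ((n : ℝ) - 1)) with hγ
  have hγ0 : 0 ≤ γ := by positivity
  have hγ1 : γ < 1 := by
    rw [hγ, div_lt_one (by positivity)]
    have : 1 / ((n : ℝ) - 1) < q - 1 := by linarith
    rwa [div_lt_iff₀ hd] at this
  have hg : 0 < 1 - γ := by linarith
  refine ⟨C * (2 / (1 - γ)) ^ (q - 1), by positivity, ?_⟩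
  intro ι _ δ a e ⟨hδ, hδ1, he, hsep⟩ r A κ hr hr1 hA hκ hκn hκq Ω _ P _ ξ hξ hbd hP
  rcases Nat.eq_zero_or_pos (Fintype.card ι) with h0 | hpos
  · refine le_trans (le_of_eq ?_) (zero_le (a := ENNReal.ofReal _))
    simp_rw [energy_empty h0 q δ (by linarith : 0 < q)]
    simp
  have hm1 : (1 : ℝ) ≤ (Fintype.card ι : ℝ) := by exact_mod_cast hpos
  set m : ℝ := (Fintype.card ι : ℝ) with hm
  have hm0 : 0 < m := by linarith
  have hcast : ((n - 1 : ℕ) : ℝ) = (n : ℝ) - 1 := by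
    rw [Nat.cast_sub (by omega)]; norm_num
  have hHle : ∑ k ∈ Finset.range (Fintype.card ι - 1), ((k + 1 : ℕ) : ℝ) ^ (-((κ - 1) / (n - 1 : ℕ))) ≤
      m ^ (1 - γ) / (1 - γ) := by
    have h1 : γ ≤ (κ - 1) / ((n : ℝ) - 1) := by
      rw [hγ, ← div_div]
      gcongr
      rw [div_le_iff₀ hq0]
      rw [div_le_iff₀ (by linarith)] at hκq
      linarith
    calc ∑ k ∈ Finset.range (Fintype.card ι - 1), ((k + 1 : ℕ) : ℝ) ^ (-((κ - 1) / (n - 1 : ℕ)))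
        ≤ ∑ k ∈ Finset.range (Fintype.card ι - 1), ((k + 1 : ℕ) : ℝ) ^ (-γ) := by
          refine Finset.sum_le_sum fun k _ => ?_
          apply Real.rpow_le_rpow_of_exponent_le
          · push_cast; linarith [(Nat.cast_nonneg k : (0 : ℝ) ≤ k)]
          · rw [hcast]; linarith
      _ ≤ ((Fintype.card ι - 1 : ℕ) : ℝ) ^ (1 - γ) / (1 - γ) := sum_pow_le γ hγ0 hγ1 _
      _ ≤ m ^ (1 - γ) / (1 - γ) := by
          gcongr
          rw [hm]; exact_mod_cast Nat.sub_le _ _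
  obtain ⟨Y, hY1, hY2, hY3⟩ := H δ hδ hδ1 ι a e he hsep r A κ q hr hA hκ hκn (by linarith) hq2 Ω P ξ hξ
    hbd hP (m ^ (1 - γ) / (1 - γ)) (by positivity) hHle
  refine (lintegral_mono hY2).trans (hY3.trans (ENNReal.ofReal_le_ofReal ?_))
  have hr2 : 1 ≤ r ^ (2 - κ) := by
    apply Real.one_le_rpow_of_pos_of_le_one_of_nonpos hr hr1; linarith
  have hmg : 1 ≤ m ^ (1 - γ) / (1 - γ) := by
    rw [le_div_iff₀ hg, one_mul]
    calc 1 - γ ≤ 1 := by linarith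
      _ ≤ m ^ (1 - γ) := Real.one_le_rpow hm1 hg.le
  have h1 : 1 + A * r ^ (2 - κ) * (m ^ (1 - γ) / (1 - γ)) ≤
      A * r ^ (2 - κ) * ((2 / (1 - γ)) * m ^ (1 - γ)) := by
    have h2 : 1 ≤ A * r ^ (2 - κ) * (m ^ (1 - γ) / (1 - γ)) := by
      calc (1 : ℝ) = 1 * 1 * 1 := by ring
        _ ≤ _ := by gcongr
    have h3 : A * r ^ (2 - κ) * ((2 / (1 - γ)) * m ^ (1 - γ)) =
        2 * (A * r ^ (2 - κ) * (m ^ (1 - γ) / (1 - γ))) := by ring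
    rw [h3]; linarith
  have hA1 : A ^ (q - 1) ≤ A := by
    calc A ^ (q - 1) ≤ A ^ (1 : ℝ) := Real.rpow_le_rpow_of_exponent_le hA (by linarith)
      _ = A := Real.rpow_one A
  have hexp : m * m ^ ((1 - γ) * (q - 1)) = m ^ (q - 1 / ((n : ℝ) - 1)) := by
    nth_rw 1 [← Real.rpow_one m]
    rw [← Real.rpow_add hm0]
    congr 1
    rw [hγ]
    field_simp
    ring
  calc C * δ ^ (n - 1) * m * (1 + A * r ^ (2 - κ) * (m ^ (1 - γ) / (1 - γ))) ^ (q - 1)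
      ≤ C * δ ^ (n - 1) * m * (A * r ^ (2 - κ) * ((2 / (1 - γ)) * m ^ (1 - γ))) ^ (q - 1) := by
        gcongr
    _ = C * δ ^ (n - 1) * m * (A ^ (q - 1) * r ^ (-((κ - 2) * (q - 1))) *
        ((2 / (1 - γ)) ^ (q - 1) * m ^ ((1 - γ) * (q - 1)))) := by
        rw [Real.mul_rpow (by positivity) (by positivity), Real.mul_rpow (by positivity) (by positivity),
          Real.mul_rpow (by positivity) (by positivity), ← Real.rpow_mul hr.le, ← Real.rpow_mul hm0.le]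
        congr 4
        ring
    _ = C * (2 / (1 - γ)) ^ (q - 1) * A ^ (q - 1) * r ^ (-((κ - 2) * (q - 1))) * δ ^ (n - 1) *
        (m * m ^ ((1 - γ) * (q - 1))) := by ring
    _ ≤ _ := by rw [hexp]; gcongr

theorem part_two_log (n : ℕ) (hn : 3 ≤ n) :
    ∃ C : ℝ, 0 < C ∧ ∀ (ι : Type) [Fintype ι] (δ : ℝ) (a e : ι → EuclideanSpace ℝ (Fin n)), Sep δ e →
      ∀ (r A q : ℝ), 0 < r → 1 ≤ A → 1 ≤ q → q ≤ 2 →
      ∀ (Ω : Type) [MeasurableSpace Ω] (P : Measure Ω) [IsProbabilityMeasure P]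
      (ξ : ι → Ω → EuclideanSpace ℝ (Fin n)), (∀ i, Measurable (ξ i)) →
      (∀ i j ω, ‖ξ i ω - ξ j ω‖ ≤ r * ‖e i - e j‖) →
      (∀ i j, i ≠ j → Spread P (fun ω => ξ i ω - ξ j ω) δ (A * (δ / (r * ‖e i - e j‖)) ^ (n : ℝ))) →
      ∫⁻ ω, energy q δ (fun i => a i + ξ i ω) e ∂P ≤
        ENNReal.ofReal (C * δ ^ (n - 1) * (Fintype.card ι : ℝ) *
          (1 + A * r ^ (2 - (n : ℝ)) * (1 + Real.log (Fintype.card ι : ℝ))) ^ (q - 1)) := by
  obtain ⟨C, hC, H⟩ := lips_maj n hn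
  have hn3 : (3 : ℝ) ≤ n := by exact_mod_cast hn
  refine ⟨C, hC, ?_⟩
  intro ι _ δ a e ⟨hδ, hδ1, he, hsep⟩ r A q hr hA hq1 hq2 Ω _ P _ ξ hξ hbd hP
  rcases Nat.eq_zero_or_pos (Fintype.card ι) with h0 | hpos
  · refine le_trans (le_of_eq ?_) (zero_le (a := ENNReal.ofReal _))
    simp_rw [energy_empty h0 q δ (by linarith : 0 < q)]
    simp
  have hm1 : (1 : ℝ) ≤ (Fintype.card ι : ℝ) := by exact_mod_cast hpos
  have hlog : 0 ≤ Real.log (Fintype.card ι : ℝ) := Real.log_nonneg hm1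
  have hcast : ((n - 1 : ℕ) : ℝ) = (n : ℝ) - 1 := by
    rw [Nat.cast_sub (by omega)]; norm_num
  have hHle : ∑ k ∈ Finset.range (Fintype.card ι - 1),
      ((k + 1 : ℕ) : ℝ) ^ (-(((n : ℝ) - 1) / (n - 1 : ℕ))) ≤ 1 + Real.log (Fintype.card ι : ℝ) := by
    rw [hcast, div_self (by linarith : (n : ℝ) - 1 ≠ 0)]
    calc ∑ k ∈ Finset.range (Fintype.card ι - 1), ((k + 1 : ℕ) : ℝ) ^ (-(1 : ℝ))
        ≤ ∑ k ∈ Finset.range (Fintype.card ι), ((k + 1 : ℕ) : ℝ) ^ (-(1 : ℝ)) := by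
          apply Finset.sum_le_sum_of_subset_of_nonneg
          · exact Finset.range_mono (Nat.sub_le _ _)
          · intro k _ _; positivity
      _ ≤ _ := sum_harm_le _
  obtain ⟨Y, hY1, hY2, hY3⟩ := H δ hδ hδ1 ι a e he hsep r A n q hr hA (by linarith) le_rfl hq1 hq2 Ω P
    ξ hξ hbd hP (1 + Real.log (Fintype.card ι : ℝ)) (by positivity) hHle
  exact (lintegral_mono hY2).trans hY3

theorem part_three (n : ℕ) (hn : 3 ≤ n) :
    ∃ C : ℝ, 0 < C ∧ ∀ (ι : Type) [Fintype ι] (δ : ℝ) (a e : ι → EuclideanSpace ℝ (Fin n)), Sep δ e →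
      ∀ (r A κ q : ℝ), 0 < r → 1 ≤ A → 2 ≤ κ → κ ≤ n → (n : ℝ) / (n - 1) ≤ q → q ≤ 2 →
      ∀ (μ : Measure (EuclideanSpace ℝ (Fin n))) [IsProbabilityMeasure μ]
      (Z : Set (EuclideanSpace ℝ (Fin n))), Z ⊆ closedBall 0 r → μ Zᶜ = 0 →
      (∀ x, μ (closedBall x δ) ≤ ENNReal.ofReal (A * (δ / r) ^ κ)) →
      ∃ η : ι → EuclideanSpace ℝ (Fin n), (∀ i, η i ∈ Z) ∧
        energy q δ (fun i => a i + η i) e ≤
        ENNReal.ofReal (C * A * δ ^ (n - 1) * (Fintype.card ι : ℝ) ^ (q - 1 / ((n : ℝ) - 1)) *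
          (1 + (δ / r) ^ ((κ - 2) * (q - 1)) * (Fintype.card ι : ℝ) ^ ((2 - q) / ((n : ℝ) - 1)))) := by
  obtain ⟨C, hC, H⟩ := exist_gen n hn
  have hn3 : (3 : ℝ) ≤ n := by exact_mod_cast hn
  refine ⟨C, hC, ?_⟩
  intro ι _ δ a e ⟨hδ, hδ1, he, hsep⟩ r A κ q hr hA hκ hκn hq1 hq2 μ _ Z hZ hμZ hμ
  have hq1' : 1 ≤ q := by
    refine le_trans ?_ hq1
    rw [le_div_iff₀ (by linarith)]; linarith
  have hdr : 0 < δ / r := by positivity
  obtain ⟨η, hη, h1⟩ := H δ hδ hδ1 ι a e he hsep r A κ q hr hA hκ hκn hq1' hq2 μ Z hZ hμZ hμ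
  refine ⟨η, hη, ?_⟩
  rcases Nat.eq_zero_or_pos (Fintype.card ι) with h0 | hpos
  · rw [energy_empty h0 q δ (by linarith : 0 < q)]
    exact zero_le
  have hm1 : (1 : ℝ) ≤ (Fintype.card ι : ℝ) := by exact_mod_cast hpos
  refine h1.trans (ENNReal.ofReal_le_ofReal ?_)
  have h := expo n hn (Fintype.card ι : ℝ) q A ((δ / r) ^ (κ - 2)) hm1 hq1 hq2 hA (by positivity)
  rw [← Real.rpow_mul hdr.le] at h
  have hc : 0 ≤ C * δ ^ (n - 1) := by positivity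
  calc C * δ ^ (n - 1) * (Fintype.card ι : ℝ) *
        (1 + A * (δ / r) ^ (κ - 2) * (Fintype.card ι : ℝ) ^ (1 - 1 / ((n : ℝ) - 1))) ^ (q - 1)
      = C * δ ^ (n - 1) * ((Fintype.card ι : ℝ) *
        (1 + A * (δ / r) ^ (κ - 2) * (Fintype.card ι : ℝ) ^ (1 - 1 / ((n : ℝ) - 1))) ^ (q - 1)) := by
        ring
    _ ≤ C * δ ^ (n - 1) * (A * (Fintype.card ι : ℝ) ^ (q - 1 / ((n : ℝ) - 1)) *
        (1 + (δ / r) ^ ((κ - 2) * (q - 1)) * (Fintype.card ι : ℝ) ^ ((2 - q) / ((n : ℝ) - 1)))) :=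
        mul_le_mul_of_nonneg_left h hc
    _ = _ := by ring

theorem norm_energy {n : ℕ} {ι : Type} [Fintype ι] (q δ : ℝ) (hq : 0 < q)
    (a e : ι → EuclideanSpace ℝ (Fin n)) :
    eLpNorm (fun y => ∑ i, (tube δ (a i) (e i)).indicator (fun _ => (1 : ℝ)) y) (ENNReal.ofReal q)
      volume = (energy q δ a e) ^ (1 / q) := by
  rw [eLpNorm_eq_lintegral_rpow_enorm_toReal (by
    rw [Ne, ENNReal.ofReal_eq_zero, not_le]; exact hq) ENNReal.ofReal_ne_top,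
    ENNReal.toReal_ofReal hq.le]
  congr 1
  unfold energy
  refine lintegral_congr fun y => ?_
  congr 1
  have h0 : 0 ≤ ∑ i, (tube δ (a i) (e i)).indicator (fun _ => (1 : ℝ)) y :=
    Finset.sum_nonneg fun i _ => Set.indicator_nonneg (fun _ _ => zero_le_one) y
  rw [Real.enorm_eq_ofReal h0, ENNReal.ofReal_sum_of_nonneg fun i _ =>
    Set.indicator_nonneg (fun _ _ => zero_le_one) y]
  refine Finset.sum_congr rfl fun i _ => ?_
  by_cases h : y ∈ tube δ (a i) (e i)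
  · rw [Set.indicator_of_mem h, Set.indicator_of_mem h]; simp
  · rw [Set.indicator_of_notMem h, Set.indicator_of_notMem h]; simp

theorem part_four (n : ℕ) (hn : 3 ≤ n) (q : ℝ) (hq1 : (n : ℝ) / (n - 1) ≤ q) (hq2 : q ≤ 2) :
    ∃ C : ℝ, 0 < C ∧ ∀ (ι : Type) [Fintype ι] (δ : ℝ) (a e : ι → EuclideanSpace ℝ (Fin n)), Sep δ e →
      ∀ r : ℝ, δ * (Fintype.card ι : ℝ) ^ ((2 - q) / (((n : ℝ) - 1) * ((n : ℝ) - 2) * (q - 1))) ≤ r →
      0 < r → ∃ η : ι → EuclideanSpace ℝ (Fin n), (∀ i, ‖η i‖ ≤ r) ∧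
      eLpNorm (fun y => ∑ i, (tube δ (a i + η i) (e i)).indicator (fun _ => (1 : ℝ)) y)
        (ENNReal.ofReal q) volume ≤
      ENNReal.ofReal (C * δ ^ (((n : ℝ) - 1) / q) *
        (Fintype.card ι : ℝ) ^ (1 - 1 / (q * ((n : ℝ) - 1)))) := by
  obtain ⟨C, hC, H⟩ := part_three n hn
  have hn3 : (3 : ℝ) ≤ n := by exact_mod_cast hn
  have hd : (0 : ℝ) < (n : ℝ) - 1 := by linarith
  have hd2 : (0 : ℝ) < (n : ℝ) - 2 := by linarith
  have hqn : 1 + 1 / ((n : ℝ) - 1) ≤ q := by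
    have : (n : ℝ) / (n - 1) = 1 + 1 / ((n : ℝ) - 1) := by field_simp; ring
    rw [← this]; exact hq1
  have hinv : 0 < 1 / ((n : ℝ) - 1) := by positivity
  have hq0 : 0 < q - 1 := by linarith
  have hq0' : 0 < q := by linarith
  refine ⟨(2 * C) ^ (1 / q), by positivity, ?_⟩
  intro ι _ δ a e hfam r hr hr0
  have hδ := hfam.1
  obtain ⟨μ, hμp, hμ1, hμ2⟩ := ball_law n r hr0
  obtain ⟨η, hη, h1⟩ := H ι δ a e hfam r 1 n q hr0 le_rfl (by linarith) le_rfl hq1 hq2 μ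
    (closedBall 0 r) le_rfl hμ1 (fun x => by rw [one_mul]; exact hμ2 x δ hδ)
  refine ⟨η, fun i => ?_, ?_⟩
  · have := hη i
    rwa [mem_closedBall, dist_zero_right] at this
  rw [norm_energy q δ hq0']
  rcases Nat.eq_zero_or_pos (Fintype.card ι) with h0 | hpos
  · rw [energy_empty h0 q δ hq0', ENNReal.zero_rpow_of_pos (by positivity)]
    exact zero_le
  have hm1 : (1 : ℝ) ≤ (Fintype.card ι : ℝ) := by exact_mod_cast hpos
  set m : ℝ := (Fintype.card ι : ℝ) with hm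
  have hm0 : 0 < m := by linarith
  have hfac : (δ / r) ^ (((n : ℝ) - 2) * (q - 1)) * m ^ ((2 - q) / ((n : ℝ) - 1)) ≤ 1 := by
    have h2 : m ^ ((2 - q) / (((n : ℝ) - 1) * ((n : ℝ) - 2) * (q - 1))) ≤ r / δ := by
      rw [le_div_iff₀ hδ, mul_comm]; exact hr
    have h3 := Real.rpow_le_rpow (by positivity) h2 (by positivity : 0 ≤ ((n : ℝ) - 2) * (q - 1))
    rw [← Real.rpow_mul hm0.le] at h3
    have h4 : (2 - q) / (((n : ℝ) - 1) * ((n : ℝ) - 2) * (q - 1)) * (((n : ℝ) - 2) * (q - 1)) =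
        (2 - q) / ((n : ℝ) - 1) := by field_simp
    rw [h4] at h3
    calc (δ / r) ^ (((n : ℝ) - 2) * (q - 1)) * m ^ ((2 - q) / ((n : ℝ) - 1))
        ≤ (δ / r) ^ (((n : ℝ) - 2) * (q - 1)) * (r / δ) ^ (((n : ℝ) - 2) * (q - 1)) := by gcongr
      _ = ((δ / r) * (r / δ)) ^ (((n : ℝ) - 2) * (q - 1)) := by
          rw [Real.mul_rpow (by positivity) (by positivity)]
      _ = 1 := by
          rw [div_mul_div_comm, mul_comm r δ, div_self (by positivity), Real.one_rpow]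
  have h5 : energy q δ (fun i => a i + η i) e ≤
      ENNReal.ofReal (2 * C * δ ^ (n - 1) * m ^ (q - 1 / ((n : ℝ) - 1))) := by
    refine h1.trans (ENNReal.ofReal_le_ofReal ?_)
    calc C * 1 * δ ^ (n - 1) * m ^ (q - 1 / ((n : ℝ) - 1)) *
          (1 + (δ / r) ^ (((n : ℝ) - 2) * (q - 1)) * m ^ ((2 - q) / ((n : ℝ) - 1)))
        ≤ C * 1 * δ ^ (n - 1) * m ^ (q - 1 / ((n : ℝ) - 1)) * (1 + 1) := by gcongr
      _ = _ := by ring
  calc (energy q δ (fun i => a i + η i) e) ^ (1 / q)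
      ≤ (ENNReal.ofReal (2 * C * δ ^ (n - 1) * m ^ (q - 1 / ((n : ℝ) - 1)))) ^ (1 / q) :=
        ENNReal.rpow_le_rpow h5 (by positivity)
    _ = ENNReal.ofReal ((2 * C * δ ^ (n - 1) * m ^ (q - 1 / ((n : ℝ) - 1))) ^ (1 / q)) := by
        rw [ENNReal.ofReal_rpow_of_nonneg (by positivity) (by positivity)]
    _ = _ := by
        congr 1
        rw [Real.mul_rpow (by positivity) (by positivity), Real.mul_rpow (by positivity) (by positivity),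
          ← Real.rpow_natCast, ← Real.rpow_mul hδ.le, ← Real.rpow_mul hm0.le]
        congr 3
        · rw [Nat.cast_sub (by omega)]; push_cast; ring
        · field_simp

end Pool.Agent.TH294.KT
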