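import Mathlib

/-!
# Volumes and coverings for tubes
-/

open MeasureTheory Metric Set Module
open scoped ENNReal

namespace Pool.Agent.TH294.KT

/-- The closed `δ`-tube of length `1` with centre `a` and direction `e` (a unit vector). -/
def tube {n : ℕ} (δ : ℝ) (a e : EuclideanSpace ℝ (Fin n)) : Set (EuclideanSpace ℝ (Fin n)) :=
  {y | |inner ℝ (y - a) e| ≤ 1 / 2 ∧ ‖(y - a) - (inner ℝ (y - a) e) • e‖ ≤ δ}

theorem tube_closed {n : ℕ} (δ : ℝ) (a e : EuclideanSpace ℝ (Fin n)) : IsClosed (tube δ a e) := by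
  have h1 : IsClosed {y : EuclideanSpace ℝ (Fin n) | |inner ℝ (y - a) e| ≤ 1 / 2} :=
    isClosed_le (by fun_prop) continuous_const
  have h2 : IsClosed {y : EuclideanSpace ℝ (Fin n) |
      ‖(y - a) - (inner ℝ (y - a) e) • e‖ ≤ δ} :=
    isClosed_le (by fun_prop) continuous_const
  exact h1.inter h2

/-- the axis representation of a point of a tube -/
theorem tube_rep {n : ℕ} {δ : ℝ} {a e y : EuclideanSpace ℝ (Fin n)} (h : y ∈ tube δ a e) :
    ∃ (s : ℝ) (w : EuclideanSpace ℝ (Fin n)), |s| ≤ 1 / 2 ∧ ‖w‖ ≤ δ ∧ y = a + s • e + w := by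
  refine ⟨inner ℝ (y - a) e, (y - a) - (inner ℝ (y - a) e) • e, h.1, h.2, ?_⟩
  abel

/-- integer approximation -/
theorem int_approx (s ρ L : ℝ) (hρ : 0 < ρ) (hs : |s| ≤ L) :
    ∃ k ∈ Finset.Icc (-(⌊L / ρ⌋ + 1)) (⌊L / ρ⌋ + 1), |s - k * ρ| ≤ ρ := by
  have hb := abs_le.mp hs
  refine ⟨⌊s / ρ⌋, ?_, ?_⟩
  · rw [Finset.mem_Icc]
    have h1 : s / ρ ≤ L / ρ := by gcongr; exact hb.2
    have h2 : -(L / ρ) ≤ s / ρ := by
      rw [← neg_div]; gcongr; exact hb.1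
    constructor
    · have h3 : (-(⌊L / ρ⌋ + 1 : ℤ) : ℝ) ≤ -(L / ρ) := by
        have := (Int.lt_floor_add_one (L / ρ)).le
        push_cast; linarith
      rw [Int.le_floor]
      push_cast
      push_cast at h3
      linarith
    · have := Int.floor_le_floor h1
      linarith
  · have h1 := Int.floor_le (s / ρ)
    have h2 := (Int.lt_floor_add_one (s / ρ)).le
    rw [le_div_iff₀ hρ] at h1
    rw [div_le_iff₀ hρ] at h2
    rw [abs_of_nonneg (by linarith)]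
    linarith

theorem card_Icc_le (x : ℝ) (hx : 0 ≤ x) :
    ((Finset.Icc (-(⌊x⌋ + 1)) (⌊x⌋ + 1)).card : ℝ) ≤ 2 * x + 3 := by
  rw [Int.card_Icc]
  have h0 : 0 ≤ ⌊x⌋ := Int.floor_nonneg.mpr hx
  have h1 : (((⌊x⌋ + 1 + 1 - -(⌊x⌋ + 1)).toNat : ℕ) : ℝ) = ((2 * ⌊x⌋ + 3 : ℤ) : ℝ) := by
    have : (((⌊x⌋ + 1 + 1 - -(⌊x⌋ + 1)).toNat : ℕ) : ℤ) = 2 * ⌊x⌋ + 3 := by
      rw [Int.toNat_of_nonneg (by omega)]; ring
    exact_mod_cast this
  rw [h1]
  push_cast
  linarith [Int.floor_le x]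

/-- volume of a neighbourhood of a segment -/
theorem vol_nbhd (n : ℕ) : ∃ c : ℝ, 0 < c ∧ ∀ (S : Set (EuclideanSpace ℝ (Fin n)))
    (y0 e : EuclideanSpace ℝ (Fin n)) (L ρ : ℝ), ‖e‖ = 1 → 0 ≤ L → 0 < ρ →
    (∀ y ∈ S, ∃ s : ℝ, |s| ≤ L ∧ ‖y - y0 - s • e‖ ≤ ρ) →
    volume S ≤ ENNReal.ofReal (c * (L / ρ + 1) * ρ ^ n) := by
  set v : ℝ := (volume (closedBall (0 : EuclideanSpace ℝ (Fin n)) 1)).toReal with hv
  have hv0 : 0 ≤ v := ENNReal.toReal_nonneg
  refine ⟨3 * 2 ^ n * v + 1, by positivity, ?_⟩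
  intro S y0 e L ρ he hL hρ hS
  set I := Finset.Icc (-(⌊L / ρ⌋ + 1)) (⌊L / ρ⌋ + 1) with hI
  have hsub : S ⊆ ⋃ k ∈ I, closedBall (y0 + ((k : ℝ) * ρ) • e) (2 * ρ) := by
    intro y hy
    obtain ⟨s, hs, hys⟩ := hS y hy
    obtain ⟨k, hk, hks⟩ := int_approx s ρ L hρ hs
    simp only [mem_iUnion]
    refine ⟨k, hk, ?_⟩
    rw [mem_closedBall, dist_eq_norm]
    have h1 : y - (y0 + ((k : ℝ) * ρ) • e) = (y - y0 - s • e) + (s - k * ρ) • e := by
      rw [sub_smul]; abel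
    rw [h1]
    refine (norm_add_le _ _).trans ?_
    rw [norm_smul, he, mul_one, Real.norm_eq_abs]
    linarith
  refine (measure_mono hsub).trans ?_
  refine (measure_biUnion_finset_le I _).trans ?_
  have hball : ∀ k ∈ I, volume (closedBall (y0 + ((k : ℝ) * ρ) • e) (2 * ρ)) ≤
      ENNReal.ofReal ((2 * ρ) ^ n * v) := by
    intro k _
    rw [Measure.addHaar_closedBall _ _ (by positivity), finrank_euclideanSpace, Fintype.card_fin,
      ENNReal.ofReal_mul (by positivity), hv, ENNReal.ofReal_toReal]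
    · have : volume (ball (0 : EuclideanSpace ℝ (Fin n)) 1) ≤
          volume (closedBall (0 : EuclideanSpace ℝ (Fin n)) 1) := measure_mono ball_subset_closedBall
      gcongr
    · exact measure_closedBall_lt_top.ne
  refine (Finset.sum_le_sum hball).trans ?_
  rw [Finset.sum_const, nsmul_eq_mul, ← ENNReal.ofReal_natCast, ← ENNReal.ofReal_mul (by positivity)]
  apply ENNReal.ofReal_le_ofReal
  have hc := card_Icc_le (L / ρ) (by positivity)
  rw [← hI] at hc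
  have h0 : 0 ≤ L / ρ := by positivity
  calc (I.card : ℝ) * ((2 * ρ) ^ n * v) ≤ (3 * (L / ρ + 1)) * ((2 * ρ) ^ n * v) := by
        gcongr; linarith
    _ = (3 * 2 ^ n * v) * (L / ρ + 1) * ρ ^ n := by rw [mul_pow]; ring
    _ ≤ (3 * 2 ^ n * v + 1) * (L / ρ + 1) * ρ ^ n := by
        gcongr; linarith

/-- volume of a tube -/
theorem tube_vol (n : ℕ) (hn : 1 ≤ n) : ∃ c : ℝ, 0 < c ∧ ∀ (δ : ℝ) (a e : EuclideanSpace ℝ (Fin n)),
    0 < δ → δ < 1 → ‖e‖ = 1 → volume (tube δ a e) ≤ ENNReal.ofReal (c * δ ^ (n - 1)) := by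
  obtain ⟨c, hc, H⟩ := vol_nbhd n
  refine ⟨2 * c, by positivity, ?_⟩
  intro δ a e hδ hδ1 he
  refine (H (tube δ a e) a e (1 / 2) δ he (by norm_num) hδ ?_).trans ?_
  · intro y hy
    obtain ⟨s, w, hs, hw, rfl⟩ := tube_rep hy
    refine ⟨s, hs, ?_⟩
    have : a + s • e + w - a - s • e = w := by abel
    rw [this]; exact hw
  · apply ENNReal.ofReal_le_ofReal
    obtain ⟨k, rfl⟩ : ∃ k, n = k + 1 := ⟨n - 1, by omega⟩
    have h1 : (1 / 2 / δ + 1) * δ ^ (k + 1) = (1 / 2 + δ) * δ ^ k := by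
      rw [pow_succ]; field_simp
    rw [mul_assoc, h1, Nat.add_sub_cancel]
    have : (1 / 2 + δ) * δ ^ k ≤ 2 * δ ^ k := by gcongr; linarith
    nlinarith

theorem abs_cases_eq (S T : ℝ) : |S - T| = |(|S| - |T|)| ∨ |S + T| = |(|S| - |T|)| := by
  rcases le_total 0 S with h1 | h1 <;> rcases le_total 0 T with h2 | h2
  · left; rw [abs_of_nonneg h1, abs_of_nonneg h2]
  · right; rw [abs_of_nonneg h1, abs_of_nonpos h2]; congr 1; ring
  · right
    rw [abs_of_nonpos h1, abs_of_nonneg h2, ← abs_neg]; congr 1; ring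
  · left
    rw [abs_of_nonpos h1, abs_of_nonpos h2, ← abs_neg]; congr 1; ring

theorem smul_diff {n : ℕ} {e e' : EuclideanSpace ℝ (Fin n)} (he : ‖e‖ = 1) (he' : ‖e'‖ = 1)
    {θ η : ℝ} (h1 : θ ≤ ‖e - e'‖) (h2 : θ ≤ ‖e + e'‖) {S T : ℝ} (hd : ‖S • e - T • e'‖ ≤ η) :
    |S| * θ ≤ 2 * η := by
  have hnS : ‖S • e‖ = |S| := by rw [norm_smul, he, mul_one, Real.norm_eq_abs]
  have hnT : ‖T • e'‖ = |T| := by rw [norm_smul, he', mul_one, Real.norm_eq_abs]
  have hST : |(|S| - |T|)| ≤ η := by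
    rw [← hnS, ← hnT]
    exact (abs_norm_sub_norm_le _ _).trans hd
  rcases abs_cases_eq S T with hst | hst
  · have h3 : S • (e - e') = (S • e - T • e') - (S - T) • e' := by module
    have h4 : ‖S • (e - e')‖ ≤ 2 * η := by
      rw [h3]
      refine (norm_sub_le _ _).trans ?_
      rw [norm_smul, he', mul_one, Real.norm_eq_abs, hst]
      linarith
    rw [norm_smul, Real.norm_eq_abs] at h4
    exact (mul_le_mul_of_nonneg_left h1 (abs_nonneg S)).trans h4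
  · have h3 : S • (e + e') = (S • e - T • e') + (S + T) • e' := by module
    have h4 : ‖S • (e + e')‖ ≤ 2 * η := by
      rw [h3]
      refine (norm_add_le _ _).trans ?_
      rw [norm_smul, he', mul_one, Real.norm_eq_abs, hst]
      linarith
    rw [norm_smul, Real.norm_eq_abs] at h4
    exact (mul_le_mul_of_nonneg_left h2 (abs_nonneg S)).trans h4

/-- the intersection of two transversal tubes (Córdoba) -/
theorem tube_inter_vol (n : ℕ) : ∃ c : ℝ, 0 < c ∧ ∀ (δ θ : ℝ) (a e a' e' : EuclideanSpace ℝ (Fin n)),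
    0 < δ → 0 < θ → ‖e‖ = 1 → ‖e'‖ = 1 → θ ≤ ‖e - e'‖ → θ ≤ ‖e + e'‖ →
    volume (tube δ a e ∩ tube δ a' e') ≤ ENNReal.ofReal (c * (δ ^ n / θ)) := by
  obtain ⟨c, hc, H⟩ := vol_nbhd n
  refine ⟨6 * 2 ^ n * c, by positivity, ?_⟩
  intro δ θ a e a' e' hδ hθ he he' h1 h2
  rcases Set.eq_empty_or_nonempty (tube δ a e ∩ tube δ a' e') with h0 | ⟨y0, hy0, hy0'⟩
  · rw [h0, measure_empty]; exact zero_le
  obtain ⟨s0, w0, hs0, hw0, h0⟩ := tube_rep hy0
  obtain ⟨t0, u0, ht0, hu0, h0'⟩ := tube_rep hy0'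
  have hθ2 : θ ≤ 2 := by
    refine h1.trans ((norm_sub_le _ _).trans ?_)
    rw [he, he']; norm_num
  refine (H _ y0 e (8 * δ / θ) (2 * δ) he (by positivity) (by positivity) ?_).trans ?_
  · rintro y ⟨hy, hy'⟩
    obtain ⟨s, w, hs, hw, h⟩ := tube_rep hy
    obtain ⟨t, u, ht, hu, h'⟩ := tube_rep hy'
    have e1 : y - y0 = (s - s0) • e + (w - w0) := by
      rw [h, h0]; module
    have e2 : y - y0 = (t - t0) • e' + (u - u0) := by
      rw [h', h0']; module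
    have hww : ‖w - w0‖ ≤ 2 * δ := (norm_sub_le _ _).trans (by linarith)
    have huu : ‖u - u0‖ ≤ 2 * δ := (norm_sub_le _ _).trans (by linarith)
    refine ⟨s - s0, ?_, ?_⟩
    · have hd : ‖(s - s0) • e - (t - t0) • e'‖ ≤ 4 * δ := by
        have h3 : (s - s0) • e - (t - t0) • e' = (u - u0) - (w - w0) := by
          rw [sub_eq_sub_iff_add_eq_add, ← e1, e2]
          abel
        rw [h3]
        exact (norm_sub_le _ _).trans (by linarith)
      rw [le_div_iff₀ hθ]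
      have := smul_diff he he' h1 h2 hd
      linarith
    · have h3 : y - y0 - (s - s0) • e = w - w0 := by rw [e1]; abel
      rw [h3]; exact hww
  · apply ENNReal.ofReal_le_ofReal
    have h3 : 8 * δ / θ / (2 * δ) + 1 ≤ 6 / θ := by
      have h6 : 8 * δ / θ / (2 * δ) = 4 / θ := by field_simp; ring
      rw [h6]
      have h4 : 1 ≤ 2 / θ := by rw [le_div_iff₀ hθ]; linarith
      have h5 : 6 / θ = 4 / θ + 2 / θ := by ring
      linarith
    calc c * (8 * δ / θ / (2 * δ) + 1) * (2 * δ) ^ n ≤ c * (6 / θ) * (2 * δ) ^ n := by gcongr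
      _ = 6 * 2 ^ n * c * (δ ^ n / θ) := by rw [mul_pow]; ring

end Pool.Agent.TH294.KT
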