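import Pool.Agent.TH294.KT.Main

/-!
# Perturbations which are Lipschitz functions of the direction
-/

open MeasureTheory Metric Set Module ProbabilityTheory
open scoped ENNReal

namespace Pool.Agent.TH294.KT

theorem lips_maj (n : ℕ) (hn : 3 ≤ n) : ∃ C : ℝ, 0 < C ∧ ∀ (δ : ℝ), 0 < δ → δ < 1 →
    ∀ (ι : Type) [Fintype ι] (a e : ι → EuclideanSpace ℝ (Fin n)),
    (∀ i, ‖e i‖ = 1) → (∀ i j, i ≠ j → δ ≤ ‖e i - e j‖) →
    ∀ (r A κ q : ℝ), 0 < r → 1 ≤ A → 2 ≤ κ → κ ≤ n → 1 ≤ q → q ≤ 2 →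
    ∀ (Ω : Type) [MeasurableSpace Ω] (P : Measure Ω) [IsProbabilityMeasure P]
    (ξ : ι → Ω → EuclideanSpace ℝ (Fin n)), (∀ i, Measurable (ξ i)) →
    (∀ i j ω, ‖ξ i ω - ξ j ω‖ ≤ r * ‖e i - e j‖) →
    (∀ i j, i ≠ j → ∀ x, P {ω | ‖ξ i ω - ξ j ω - x‖ ≤ δ} ≤
      ENNReal.ofReal (A * (δ / (r * ‖e i - e j‖)) ^ κ)) →
    ∀ (H : ℝ), 0 ≤ H → ∑ k ∈ Finset.range (Fintype.card ι - 1),
      ((k + 1 : ℕ) : ℝ) ^ (-((κ - 1) / (n - 1 : ℕ))) ≤ H →
    ∃ Y : Ω → ℝ≥0∞, Measurable Y ∧ (∀ ω, energy q δ (fun i => a i + ξ i ω) e ≤ Y ω) ∧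
    ∫⁻ ω, Y ω ∂P ≤ ENNReal.ofReal (C * δ ^ (n - 1) * (Fintype.card ι : ℝ) *
      (1 + A * r ^ (2 - κ) * H) ^ (q - 1)) := by
  classical
  obtain ⟨c1, hc1, H1⟩ := moment n (by omega)
  obtain ⟨c2, hc2, H2⟩ := pair_bound n (by omega)
  obtain ⟨K, hK, H3⟩ := ang_sum n (by omega)
  have hn3 : (3 : ℝ) ≤ n := by exact_mod_cast hn
  refine ⟨c1 + c2 * K, by positivity, ?_⟩
  intro δ hδ hδ1 ι _ a e he hsep r A κ q hr hA hκ hκn hq1 hq2 Ω _ P _ ξ hξ hbd hP HH hHH0 hHH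
  rcases Nat.eq_zero_or_pos (Fintype.card ι) with h0 | hpos
  · refine ⟨fun _ => 0, measurable_const, fun ω => ?_, by simp⟩
    rw [energy_empty h0 q δ (by linarith)]
  have hm1 : (1 : ℝ) ≤ (Fintype.card ι : ℝ) := by exact_mod_cast hpos
  set m : ℝ := (Fintype.card ι : ℝ) with hm
  have hdr : 0 < δ / r := by positivity
  set B : ι → ι → ℝ := fun i j =>
    c2 * A * δ ^ n * (δ / r) ^ (κ - 2) * (ang δ (e i) (e j)) ^ (-(κ - 1)) with hBdef
  have hang : ∀ i j, 0 < ang δ (e i) (e j) := fun i j => hδ.trans_le (ang_ge _ _ _)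
  have hB0 : ∀ i j, 0 ≤ B i j := by
    intro i j
    have := hang i j
    simp only [hBdef]; positivity
  have hpair : ∀ i j, i ≠ j → ∃ M : Ω → ℝ≥0∞, Measurable M ∧
      (∀ ω, volume (tube δ (a i + ξ i ω) (e i) ∩ tube δ (a j + ξ j ω) (e j)) ≤ M ω) ∧
      ∫⁻ ω, M ω ∂P ≤ ENNReal.ofReal (B i j) := by
    intro i j hij
    have hij0 : 0 < ‖e i - e j‖ := hδ.trans_le (hsep i j hij)
    obtain ⟨M, hM1, hM2, hM3⟩ := H2 δ (r * ‖e i - e j‖) A κ (a i) (e i) (a j) (e j) hδ hδ1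
      (by positivity) hA hκ (he i) (he j) Ω P (ξ i) (ξ j) (hξ i) (hξ j) (hbd i j) (hP i j hij)
    refine ⟨M, hM1, hM2, hM3.trans (ENNReal.ofReal_le_ofReal ?_)⟩
    simp only [hBdef]
    have ha := hang i j
    have h1 : ang δ (e i) (e j) ≤ ‖e i - e j‖ := max_le (hsep i j hij) (min_le_left _ _)
    have h3 : (δ / (r * ‖e i - e j‖)) ^ (κ - 2) ≤
        (δ / r) ^ (κ - 2) * (ang δ (e i) (e j)) ^ (-(κ - 2)) := by
      rw [Real.rpow_neg ha.le, ← Real.inv_rpow ha.le, ← Real.mul_rpow hdr.le (by positivity)]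
      apply Real.rpow_le_rpow (by positivity) _ (by linarith)
      rw [← div_eq_mul_inv, div_div]
      gcongr
    calc c2 * A * (δ ^ n / ang δ (e i) (e j)) * (δ / (r * ‖e i - e j‖)) ^ (κ - 2)
        ≤ c2 * A * (δ ^ n / ang δ (e i) (e j)) *
          ((δ / r) ^ (κ - 2) * (ang δ (e i) (e j)) ^ (-(κ - 2))) := by gcongr
      _ = c2 * A * δ ^ n * (δ / r) ^ (κ - 2) *
          ((ang δ (e i) (e j)) ^ (-(κ - 2)) * (ang δ (e i) (e j))⁻¹) := by ring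
      _ = _ := by
          rw [← Real.rpow_neg_one (ang δ (e i) (e j)), ← Real.rpow_add ha]
          congr 2; ring
  choose! M hM using hpair
  obtain ⟨Y, hY1, hY2, hY3⟩ := H1 δ hδ hδ1 ι a e he q hq1 hq2 Ω P ξ B M hB0
    (fun i j hij => hM i j hij)
  refine ⟨Y, hY1, hY2, hY3.trans (ENNReal.ofReal_le_ofReal ?_)⟩
  refine (combine c1 _ (δ ^ (n - 1)) m q (A * r ^ (2 - κ) * HH) hc1 rfl
    (by positivity) hm1 hq1 hq2 (c1 + c2 * K) (by
      have : 0 < K := by linarith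
      have : 0 < c2 * K := by positivity
      linarith) (by positivity) _
    (Finset.sum_nonneg fun i _ => Finset.sum_nonneg fun j _ => hB0 i j) ?_).trans (le_of_eq rfl)
  have hKp : 0 < K := by linarith
  have hpow : δ ^ n * (δ / r) ^ (κ - 2) * δ ^ (-(κ - 1)) = δ ^ (n - 1) * r ^ (2 - κ) := by
    rw [Real.div_rpow hδ.le hr.le, div_eq_mul_inv, ← Real.rpow_neg hr.le]
    have h1 : δ ^ n * (δ ^ (κ - 2) * δ ^ (-(κ - 1))) = δ ^ (n - 1) := by
      rw [← Real.rpow_add hδ, show κ - 2 + -(κ - 1) = -(1 : ℝ) by ring, Real.rpow_neg_one]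
      obtain ⟨k, hk⟩ : ∃ k, n = k + 1 := ⟨n - 1, by omega⟩
      rw [hk, pow_succ, Nat.add_sub_cancel, mul_assoc, mul_inv_cancel₀ hδ.ne', mul_one]
    rw [← h1, show -(κ - 2) = 2 - κ by ring]
    ring
  have hrow : ∀ i, ∑ j ∈ Finset.univ.erase i, B i j ≤
      (c2 * K) * A * δ ^ (n - 1) * r ^ (2 - κ) * HH := by
    intro i
    have h1 : ∑ j ∈ Finset.univ.erase i, B i j = (c2 * A * δ ^ n * (δ / r) ^ (κ - 2)) *
        ∑ j ∈ Finset.univ.erase i, (ang δ (e i) (e j)) ^ (-(κ - 1)) := by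
      rw [Finset.mul_sum]
    have h2 := H3 ι e δ hδ he hsep i (κ - 1) (by linarith) (by linarith)
    rw [h1]
    calc (c2 * A * δ ^ n * (δ / r) ^ (κ - 2)) *
          ∑ j ∈ Finset.univ.erase i, (ang δ (e i) (e j)) ^ (-(κ - 1))
        ≤ (c2 * A * δ ^ n * (δ / r) ^ (κ - 2)) * (K * δ ^ (-(κ - 1)) * HH) := by
          gcongr
          exact h2.trans (by gcongr)
      _ = (c2 * K) * A * (δ ^ n * (δ / r) ^ (κ - 2) * δ ^ (-(κ - 1))) * HH := by ring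
      _ = _ := by rw [hpow]; ring
  calc ∑ i, ∑ j ∈ Finset.univ.erase i, B i j
      ≤ ∑ i : ι, (c2 * K) * A * δ ^ (n - 1) * r ^ (2 - κ) * HH :=
        Finset.sum_le_sum fun i _ => hrow i
    _ = m * ((c2 * K) * A * δ ^ (n - 1) * r ^ (2 - κ) * HH) := by
        rw [Finset.sum_const, nsmul_eq_mul, Finset.card_univ]
    _ = (c2 * K) * (m * δ ^ (n - 1) * (A * r ^ (2 - κ) * HH)) := by ring
    _ ≤ (c1 + c2 * K) * (m * δ ^ (n - 1) * (A * r ^ (2 - κ) * HH)) := by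
        gcongr; linarith

/-- independence and a bound for the balls of one variable give the bound for the difference -/
theorem diff_ball {n : ℕ} {Ω : Type} [MeasurableSpace Ω] (P : Measure Ω) [IsProbabilityMeasure P]
    (ξ ξ' : Ω → EuclideanSpace ℝ (Fin n)) (hξ : Measurable ξ) (hξ' : Measurable ξ')
    (hind : IndepFun ξ ξ' P) (δ : ℝ) (b : ℝ≥0∞) (hb : ∀ x, P {ω | ‖ξ ω - x‖ ≤ δ} ≤ b)
    (x : EuclideanSpace ℝ (Fin n)) : P {ω | ‖ξ ω - ξ' ω - x‖ ≤ δ} ≤ b := by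
  have hmap := (indepFun_iff_map_prod_eq_prod_map_map hξ.aemeasurable hξ'.aemeasurable).mp hind
  set S : Set (EuclideanSpace ℝ (Fin n) × EuclideanSpace ℝ (Fin n)) :=
    {p | ‖p.1 - p.2 - x‖ ≤ δ} with hS
  have hSm : MeasurableSet S := by
    apply measurableSet_le _ measurable_const
    exact ((measurable_fst.sub measurable_snd).sub_const x).norm
  have h1 : P {ω | ‖ξ ω - ξ' ω - x‖ ≤ δ} = P.map (fun ω => (ξ ω, ξ' ω)) S := by
    rw [Measure.map_apply (hξ.prodMk hξ') hSm]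
    rfl
  have : IsProbabilityMeasure (P.map ξ') := Measure.isProbabilityMeasure_map hξ'.aemeasurable
  rw [h1, hmap, Measure.prod_apply_symm hSm]
  calc ∫⁻ v, (P.map ξ) ((fun u => (u, v)) ⁻¹' S) ∂(P.map ξ') ≤ ∫⁻ _, b ∂(P.map ξ') := by
        refine lintegral_mono fun v => ?_
        have hms : MeasurableSet ((fun u => (u, v)) ⁻¹' S) := measurable_prodMk_right hSm
        rw [Measure.map_apply hξ hms]
        refine le_trans (le_of_eq ?_) (hb (v + x))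
        congr 1
        ext ω
        simp only [mem_preimage, hS, Set.mem_ofPred_eq]
        rw [sub_sub]
    _ = b := by rw [lintegral_const, measure_univ, mul_one]

end Pool.Agent.TH294.KT
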