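import Pool.Agent.TH294.KT.Prob

/-!
# Small random perturbations of families of tubes
-/

open MeasureTheory Metric Set Module ProbabilityTheory
open scoped ENNReal

namespace Pool.Agent.TH294.KT

/-- The `q`-th power of the `L^q` norm of the number of the tubes containing a point:
`∫ (∑ i, 1_{T i}) ^ q`, for the `δ`-tubes with centres `a i` and directions `e i`. -/
noncomputable def energy {n : ℕ} {ι : Type} [Fintype ι] (q δ : ℝ)
    (a e : ι → EuclideanSpace ℝ (Fin n)) : ℝ≥0∞ :=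
  ∫⁻ y, (∑ i, (tube δ (a i) (e i)).indicator (1 : EuclideanSpace ℝ (Fin n) → ℝ≥0∞) y) ^ q

theorem energy_empty {n : ℕ} {ι : Type} [Fintype ι] (h : Fintype.card ι = 0) (q δ : ℝ) (hq : 0 < q)
    (a e : ι → EuclideanSpace ℝ (Fin n)) : energy q δ a e = 0 := by
  have : IsEmpty ι := Fintype.card_eq_zero_iff.mp h
  unfold energy
  simp [ENNReal.zero_rpow_of_pos hq]

/-- bookkeeping with exponents -/
theorem combine (c X D m q G : ℝ) (hc : 0 < c) (hX : X = c * (m * D)) (hD : 0 ≤ D) (hm : 1 ≤ m)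
    (hq1 : 1 ≤ q) (hq2 : q ≤ 2) (C : ℝ) (hC : c ≤ C) (hG : 0 ≤ G) (S : ℝ) (hS0 : 0 ≤ S)
    (hS : S ≤ C * (m * D * G)) :
    X ^ (2 - q) * (X + S) ^ (q - 1) ≤ C * D * m * (1 + G) ^ (q - 1) := by
  have hC0 : 0 < C := hc.trans_le hC
  have hm0 : 0 < m := by linarith
  have h1 : X ≤ C * (m * D) := by rw [hX]; gcongr
  have hX0 : 0 ≤ X := by rw [hX]; positivity
  have h2 : X + S ≤ (C * (m * D)) * (1 + G) := by
    have : (C * (m * D)) * (1 + G) = C * (m * D) + C * (m * D * G) := by ring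
    rw [this]; linarith
  have hb : 0 ≤ C * (m * D) := by positivity
  calc X ^ (2 - q) * (X + S) ^ (q - 1)
      ≤ (C * (m * D)) ^ (2 - q) * ((C * (m * D)) * (1 + G)) ^ (q - 1) := by
        apply mul_le_mul (Real.rpow_le_rpow hX0 h1 (by linarith))
          (Real.rpow_le_rpow (by positivity) h2 (by linarith)) (by positivity) (by positivity)
    _ = ((C * (m * D)) ^ (2 - q) * (C * (m * D)) ^ (q - 1)) * (1 + G) ^ (q - 1) := by
        rw [Real.mul_rpow hb (by positivity)]; ring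
    _ = (C * (m * D)) * (1 + G) ^ (q - 1) := by
        rw [← Real.rpow_add_of_nonneg hb (by linarith) (by linarith)]
        have : 2 - q + (q - 1) = 1 := by ring
        rw [this, Real.rpow_one]
    _ = C * D * m * (1 + G) ^ (q - 1) := by ring

/-- translations: general form with the majorant -/
theorem transl_maj (n : ℕ) (hn : 3 ≤ n) : ∃ C : ℝ, 0 < C ∧ ∀ (δ : ℝ), 0 < δ → δ < 1 →
    ∀ (ι : Type) [Fintype ι] (a e : ι → EuclideanSpace ℝ (Fin n)),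
    (∀ i, ‖e i‖ = 1) → (∀ i j, i ≠ j → δ ≤ ‖e i - e j‖) →
    ∀ (r A κ q : ℝ), 0 < r → 1 ≤ A → 2 ≤ κ → κ ≤ n → 1 ≤ q → q ≤ 2 →
    ∀ (Ω : Type) [MeasurableSpace Ω] (P : Measure Ω) [IsProbabilityMeasure P]
    (ξ : ι → Ω → EuclideanSpace ℝ (Fin n)), (∀ i, Measurable (ξ i)) → (∀ i ω, ‖ξ i ω‖ ≤ r) →
    (∀ i j, i ≠ j → ∀ x, P {ω | ‖ξ i ω - ξ j ω - x‖ ≤ δ} ≤ ENNReal.ofReal (A * (δ / r) ^ κ)) →
    ∃ Y : Ω → ℝ≥0∞, Measurable Y ∧ (∀ ω, energy q δ (fun i => a i + ξ i ω) e ≤ Y ω) ∧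
    ∫⁻ ω, Y ω ∂P ≤ ENNReal.ofReal (C * δ ^ (n - 1) * (Fintype.card ι : ℝ) *
      (1 + A * (δ / r) ^ (κ - 2) * (Fintype.card ι : ℝ) ^ (1 - 1 / ((n : ℝ) - 1))) ^ (q - 1)) := by
  classical
  obtain ⟨c1, hc1, H1⟩ := moment n (by omega)
  obtain ⟨c2, hc2, H2⟩ := pair_bound n (by omega)
  obtain ⟨K, hK, H3⟩ := ang_sum n (by omega)
  have hn3 : (3 : ℝ) ≤ n := by exact_mod_cast hn
  have hd2 : (2 : ℝ) ≤ (n : ℝ) - 1 := by linarith
  refine ⟨c1 + 2 * (c2 * 2 ^ n * K), by positivity, ?_⟩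
  intro δ hδ hδ1 ι _ a e he hsep r A κ q hr hA hκ hκn hq1 hq2 Ω _ P _ ξ hξ hbd hP
  rcases Nat.eq_zero_or_pos (Fintype.card ι) with h0 | hpos
  · refine ⟨fun _ => 0, measurable_const, fun ω => ?_, by simp⟩
    rw [energy_empty h0 q δ (by linarith)]
  have hm1 : (1 : ℝ) ≤ (Fintype.card ι : ℝ) := by exact_mod_cast hpos
  set m : ℝ := (Fintype.card ι : ℝ) with hm
  have hdr : 0 < δ / r := by positivity
  set B : ι → ι → ℝ := fun i j =>
    c2 * (A * 2 ^ n) * (δ ^ n / ang δ (e i) (e j)) * (δ / r) ^ (κ - 2) with hBdef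
  have hang : ∀ i j, 0 < ang δ (e i) (e j) := fun i j => hδ.trans_le (ang_ge _ _ _)
  have hB0 : ∀ i j, 0 ≤ B i j := by
    intro i j
    have := hang i j
    simp only [hBdef]; positivity
  have hpair : ∀ i j, i ≠ j → ∃ M : Ω → ℝ≥0∞, Measurable M ∧
      (∀ ω, volume (tube δ (a i + ξ i ω) (e i) ∩ tube δ (a j + ξ j ω) (e j)) ≤ M ω) ∧
      ∫⁻ ω, M ω ∂P ≤ ENNReal.ofReal (B i j) := by
    intro i j hij
    obtain ⟨M, hM1, hM2, hM3⟩ := H2 δ (2 * r) (A * 2 ^ n) κ (a i) (e i) (a j) (e j) hδ hδ1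
      (by positivity) (by
        have : (1 : ℝ) ≤ 2 ^ n := one_le_pow₀ (by norm_num)
        nlinarith) hκ (he i) (he j) Ω P (ξ i) (ξ j) (hξ i) (hξ j)
      (fun ω => (norm_sub_le _ _).trans (by linarith [hbd i ω, hbd j ω]))
      (fun x => (hP i j hij x).trans (ENNReal.ofReal_le_ofReal (by
        have h1 : (δ / (2 * r)) ^ κ = (δ / r) ^ κ * (1 / 2) ^ κ := by
          rw [← Real.mul_rpow hdr.le (by norm_num)]; congr 1; field_simp
        have h2 : (1 : ℝ) ≤ 2 ^ n * (1 / 2) ^ κ := by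
          rw [one_div, Real.inv_rpow (by norm_num), ← div_eq_mul_inv, le_div_iff₀ (by positivity), one_mul,
            ← Real.rpow_natCast]
          exact Real.rpow_le_rpow_of_exponent_le (by norm_num) hκn
        rw [h1]
        calc A * (δ / r) ^ κ = A * (δ / r) ^ κ * 1 := by ring
          _ ≤ A * (δ / r) ^ κ * (2 ^ n * (1 / 2) ^ κ) := by gcongr
          _ = A * 2 ^ n * ((δ / r) ^ κ * (1 / 2) ^ κ) := by ring)))
    refine ⟨M, hM1, hM2, hM3.trans (ENNReal.ofReal_le_ofReal ?_)⟩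
    simp only [hBdef]
    have h3 : (δ / (2 * r)) ^ (κ - 2) ≤ (δ / r) ^ (κ - 2) := by
      apply Real.rpow_le_rpow (by positivity) _ (by linarith)
      gcongr; linarith
    have := hang i j
    gcongr
  choose! M hM using hpair
  obtain ⟨Y, hY1, hY2, hY3⟩ := H1 δ hδ hδ1 ι a e he q hq1 hq2 Ω P ξ B M hB0
    (fun i j hij => hM i j hij)
  refine ⟨Y, hY1, hY2, hY3.trans (ENNReal.ofReal_le_ofReal ?_)⟩
  refine (combine c1 _ (δ ^ (n - 1)) m q (A * (δ / r) ^ (κ - 2) * m ^ (1 - 1 / ((n : ℝ) - 1))) hc1 rfl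
    (by positivity) hm1 hq1 hq2 (c1 + 2 * (c2 * 2 ^ n * K)) (by
      have : 0 < K := by linarith
      have : 0 < 2 * (c2 * 2 ^ n * K) := by positivity
      linarith) (by positivity) _
    (Finset.sum_nonneg fun i _ => Finset.sum_nonneg fun j _ => hB0 i j) ?_).trans (le_of_eq rfl)
  -- the double sum
  have hcast : ((n - 1 : ℕ) : ℝ) = (n : ℝ) - 1 := by
    rw [Nat.cast_sub (by omega)]; norm_num
  have hrow : ∀ i, ∑ j ∈ Finset.univ.erase i, B i j ≤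
      (c2 * 2 ^ n * K) * A * δ ^ (n - 1) * (δ / r) ^ (κ - 2) * (2 * m ^ (1 - 1 / ((n : ℝ) - 1))) := by
    intro i
    have h1 : ∑ j ∈ Finset.univ.erase i, B i j = (c2 * (A * 2 ^ n) * δ ^ n * (δ / r) ^ (κ - 2)) *
        ∑ j ∈ Finset.univ.erase i, (ang δ (e i) (e j)) ^ (-(1 : ℝ)) := by
      rw [Finset.mul_sum]
      refine Finset.sum_congr rfl fun j _ => ?_
      simp only [hBdef]
      rw [Real.rpow_neg_one]; ring
    have h2 := H3 ι e δ hδ he hsep i 1 zero_le_one (by linarith)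
    have h3 : ∑ k ∈ Finset.range (Fintype.card ι - 1), ((k + 1 : ℕ) : ℝ) ^ (-((1 : ℝ) / (n - 1 : ℕ))) ≤
        2 * m ^ (1 - 1 / ((n : ℝ) - 1)) := by
      have hγ1 : 1 / ((n : ℝ) - 1) ≤ 1 / 2 := by
        apply one_div_le_one_div_of_le (by norm_num) hd2
      have hγ0 : 0 ≤ 1 / ((n : ℝ) - 1) := by positivity
      have h4 := sum_pow_le (1 / ((n : ℝ) - 1)) hγ0 (by linarith) (Fintype.card ι - 1)
      rw [hcast]
      refine h4.trans ?_
      rw [div_le_iff₀ (by linarith)]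
      have h5 : ((Fintype.card ι - 1 : ℕ) : ℝ) ^ (1 - 1 / ((n : ℝ) - 1)) ≤ m ^ (1 - 1 / ((n : ℝ) - 1)) := by
        apply Real.rpow_le_rpow (by positivity) _ (by linarith)
        rw [hm]; exact_mod_cast Nat.sub_le _ _
      have h6 : 0 ≤ m ^ (1 - 1 / ((n : ℝ) - 1)) := by positivity
      nlinarith
    rw [h1]
    have hKp : 0 < K := by linarith
    calc (c2 * (A * 2 ^ n) * δ ^ n * (δ / r) ^ (κ - 2)) *
          ∑ j ∈ Finset.univ.erase i, (ang δ (e i) (e j)) ^ (-(1 : ℝ))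
        ≤ (c2 * (A * 2 ^ n) * δ ^ n * (δ / r) ^ (κ - 2)) *
          (K * δ ^ (-(1 : ℝ)) * (2 * m ^ (1 - 1 / ((n : ℝ) - 1)))) := by
          gcongr
          exact h2.trans (by gcongr)
      _ = (c2 * 2 ^ n * K) * A * (δ ^ n * δ ^ (-(1 : ℝ))) * (δ / r) ^ (κ - 2) *
          (2 * m ^ (1 - 1 / ((n : ℝ) - 1))) := by ring
      _ = _ := by
          congr 3
          rw [Real.rpow_neg_one]
          obtain ⟨k, hk⟩ : ∃ k, n = k + 1 := ⟨n - 1, by omega⟩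
          rw [hk, pow_succ, Nat.add_sub_cancel, mul_assoc, mul_inv_cancel₀ hδ.ne', mul_one]
  calc ∑ i, ∑ j ∈ Finset.univ.erase i, B i j
      ≤ ∑ i : ι, (c2 * 2 ^ n * K) * A * δ ^ (n - 1) * (δ / r) ^ (κ - 2) *
        (2 * m ^ (1 - 1 / ((n : ℝ) - 1))) := Finset.sum_le_sum fun i _ => hrow i
    _ = m * ((c2 * 2 ^ n * K) * A * δ ^ (n - 1) * (δ / r) ^ (κ - 2) *
        (2 * m ^ (1 - 1 / ((n : ℝ) - 1)))) := by
        rw [Finset.sum_const, nsmul_eq_mul, Finset.card_univ]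
    _ = (2 * (c2 * 2 ^ n * K)) * (m * δ ^ (n - 1) *
        (A * (δ / r) ^ (κ - 2) * m ^ (1 - 1 / ((n : ℝ) - 1)))) := by ring
    _ ≤ (c1 + 2 * (c2 * 2 ^ n * K)) * (m * δ ^ (n - 1) *
        (A * (δ / r) ^ (κ - 2) * m ^ (1 - 1 / ((n : ℝ) - 1)))) := by
        gcongr; linarith

end Pool.Agent.TH294.KT
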