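import Pool.Agent.TH294.KT.Sum
import Pool.Agent.TH294.KT.Cover

/-!
# Random translations of tubes: second moments
-/

open MeasureTheory Metric Set Module
open scoped ENNReal

namespace Pool.Agent.TH294.KT

/-- the two deterministic bounds in one -/
theorem tube_inter (n : ℕ) (hn : 1 ≤ n) : ∃ c : ℝ, 0 < c ∧
    ∀ (δ : ℝ) (a e a' e' : EuclideanSpace ℝ (Fin n)), 0 < δ → δ < 1 → ‖e‖ = 1 → ‖e'‖ = 1 →
    volume (tube δ a e ∩ tube δ a' e') ≤ ENNReal.ofReal (c * (δ ^ n / ang δ e e')) := by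
  obtain ⟨c1, hc1, H1⟩ := tube_vol n hn
  obtain ⟨c2, hc2, H2⟩ := tube_inter_vol n
  refine ⟨c1 + c2, by positivity, ?_⟩
  intro δ a e a' e' hδ hδ1 he he'
  rcases le_or_gt (min ‖e - e'‖ ‖e + e'‖) δ with h | h
  · have hang : ang δ e e' = δ := max_eq_left h
    refine (measure_mono Set.inter_subset_left).trans ((H1 δ a e hδ hδ1 he).trans ?_)
    apply ENNReal.ofReal_le_ofReal
    rw [hang]
    have : δ ^ n / δ = δ ^ (n - 1) := by
      obtain ⟨k, rfl⟩ : ∃ k, n = k + 1 := ⟨n - 1, by omega⟩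
      rw [pow_succ, mul_div_assoc, div_self hδ.ne', mul_one, Nat.add_sub_cancel]
    rw [this]
    gcongr
    linarith
  · have hang : ang δ e e' = min ‖e - e'‖ ‖e + e'‖ := max_eq_right h.le
    have hpos : 0 < min ‖e - e'‖ ‖e + e'‖ := hδ.trans h
    refine (H2 δ _ a e a' e' hδ hpos he he' (min_le_left _ _) (min_le_right _ _)).trans ?_
    apply ENNReal.ofReal_le_ofReal
    rw [hang]
    gcongr
    linarith

theorem pair_bound (n : ℕ) (hn : 1 ≤ n) : ∃ c : ℝ, 0 < c ∧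
    ∀ (δ ρ A κ : ℝ) (a e a' e' : EuclideanSpace ℝ (Fin n)), 0 < δ → δ < 1 → 0 < ρ → 1 ≤ A → 2 ≤ κ →
    ‖e‖ = 1 → ‖e'‖ = 1 → ∀ (Ω : Type) [MeasurableSpace Ω] (P : Measure Ω) [IsProbabilityMeasure P]
    (ξ ξ' : Ω → EuclideanSpace ℝ (Fin n)), Measurable ξ → Measurable ξ' →
    (∀ ω, ‖ξ ω - ξ' ω‖ ≤ ρ) →
    (∀ x, P {ω | ‖ξ ω - ξ' ω - x‖ ≤ δ} ≤ ENNReal.ofReal (A * (δ / ρ) ^ κ)) →
    ∃ M : Ω → ℝ≥0∞, Measurable M ∧
      (∀ ω, volume (tube δ (a + ξ ω) e ∩ tube δ (a' + ξ' ω) e') ≤ M ω) ∧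
      ∫⁻ ω, M ω ∂P ≤ ENNReal.ofReal (c * A * (δ ^ n / ang δ e e') * (δ / ρ) ^ (κ - 2)) := by
  obtain ⟨c1, hc1, H1⟩ := tube_inter n hn
  obtain ⟨c2, hc2, H2⟩ := diff_cover n
  refine ⟨c1 * (1 + c2), by positivity, ?_⟩
  intro δ ρ A κ a e a' e' hδ hδ1 hρ hA hκ he he' Ω _ P _ ξ ξ' hξ hξ' hbd hP
  have hang : 0 < ang δ e e' := hδ.trans_le (ang_ge _ _ _)
  have hdr : 0 < δ / ρ := by positivity
  rcases lt_or_ge ρ δ with h | h
  · refine ⟨fun _ => ENNReal.ofReal (c1 * (δ ^ n / ang δ e e')), measurable_const,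
      fun ω => H1 δ _ e _ e' hδ hδ1 he he', ?_⟩
    rw [lintegral_const, measure_univ, mul_one]
    apply ENNReal.ofReal_le_ofReal
    have h1 : 1 ≤ (δ / ρ) ^ (κ - 2) := by
      apply Real.one_le_rpow _ (by linarith)
      rw [le_div_iff₀ hρ]; linarith
    calc c1 * (δ ^ n / ang δ e e') = c1 * 1 * 1 * (δ ^ n / ang δ e e') * 1 := by ring
      _ ≤ c1 * (1 + c2) * A * (δ ^ n / ang δ e e') * (δ / ρ) ^ (κ - 2) := by
          gcongr; linarith
  · obtain ⟨F, hFc, hF⟩ := H2 δ ρ (a' - a) e e' hδ h he he'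
    set V : ℝ := c1 * (δ ^ n / ang δ e e') with hV
    have hV0 : 0 ≤ V := by positivity
    have hms : ∀ p : EuclideanSpace ℝ (Fin n), MeasurableSet {ω | ‖ξ ω - ξ' ω - p‖ ≤ δ} := by
      intro p
      exact measurableSet_le ((hξ.sub hξ').sub_const p).norm measurable_const
    refine ⟨fun ω => ENNReal.ofReal V * ∑ p ∈ F, {ω | ‖ξ ω - ξ' ω - p‖ ≤ δ}.indicator 1 ω, ?_, ?_, ?_⟩
    · refine Measurable.const_mul ?_ _
      refine Finset.measurable_fun_sum F fun p _ => ?_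
      exact measurable_one.indicator (hms p)
    · intro ω
      rcases Set.eq_empty_or_nonempty (tube δ (a + ξ ω) e ∩ tube δ (a' + ξ' ω) e') with h0 | ⟨y, hy, hy'⟩
      · rw [h0, measure_empty]; exact zero_le
      obtain ⟨s, w, hs, hw, h1⟩ := tube_rep hy
      obtain ⟨t, u, ht, hu, h2⟩ := tube_rep hy'
      have h3 : ‖(ξ ω - ξ' ω) - ((a' - a) + t • e' - s • e)‖ ≤ 2 * δ := by
        have h4 : (ξ ω - ξ' ω) - ((a' - a) + t • e' - s • e) = u - w := by
          have h5 : a + ξ ω + s • e + w = a' + ξ' ω + t • e' + u := h1.symm.trans h2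
          have h6 : ξ ω = a' + ξ' ω + t • e' + u - a - s • e - w := by
            rw [← h5]; abel
          rw [h6]; abel
        rw [h4]
        exact (norm_sub_le _ _).trans (by linarith)
      obtain ⟨p, hp, hp'⟩ := hF (ξ ω - ξ' ω) s t (hbd ω) h3
      refine (H1 δ _ e _ e' hδ hδ1 he he').trans ?_
      have h7 : (1 : ℝ≥0∞) ≤ ∑ p ∈ F, {ω | ‖ξ ω - ξ' ω - p‖ ≤ δ}.indicator 1 ω := by
        refine le_trans ?_ (Finset.single_le_sum (f := fun p =>
          {ω | ‖ξ ω - ξ' ω - p‖ ≤ δ}.indicator (1 : Ω → ℝ≥0∞) ω) (fun _ _ => zero_le) hp)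
        rw [Set.indicator_of_mem (show ω ∈ {ω | ‖ξ ω - ξ' ω - p‖ ≤ δ} from hp')]
        exact le_rfl
      calc ENNReal.ofReal (c1 * (δ ^ n / ang δ e e')) = ENNReal.ofReal V * 1 := by rw [mul_one]
        _ ≤ _ := mul_le_mul_right h7 _
    · rw [lintegral_const_mul _ (Finset.measurable_fun_sum F fun p _ =>
        measurable_one.indicator (hms p))]
      rw [lintegral_finsetSum F fun p _ => measurable_one.indicator (hms p)]
      have h1 : ∀ p ∈ F, ∫⁻ ω, {ω | ‖ξ ω - ξ' ω - p‖ ≤ δ}.indicator 1 ω ∂P ≤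
          ENNReal.ofReal (A * (δ / ρ) ^ κ) := by
        intro p _
        rw [lintegral_indicator_one (hms p)]
        exact hP p
      refine (mul_le_mul_right (Finset.sum_le_sum h1) _).trans ?_
      rw [Finset.sum_const, nsmul_eq_mul, ← ENNReal.ofReal_natCast, ← ENNReal.ofReal_mul (by positivity),
        ← ENNReal.ofReal_mul hV0]
      apply ENNReal.ofReal_le_ofReal
      have h2 : (ρ / δ) ^ 2 * (δ / ρ) ^ κ = (δ / ρ) ^ (κ - 2) := by
        have h3 : (ρ / δ) ^ 2 = (δ / ρ) ^ (-(2 : ℝ)) := by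
          rw [Real.rpow_neg hdr.le, Real.rpow_two, ← inv_div, inv_pow]
        rw [h3, ← Real.rpow_add hdr]
        congr 1; ring
      calc V * ((F.card : ℝ) * (A * (δ / ρ) ^ κ)) ≤ V * ((c2 * (ρ / δ) ^ 2) * (A * (δ / ρ) ^ κ)) := by
            gcongr
        _ = c1 * c2 * A * (δ ^ n / ang δ e e') * ((ρ / δ) ^ 2 * (δ / ρ) ^ κ) := by rw [hV]; ring
        _ = c1 * c2 * A * (δ ^ n / ang δ e e') * (δ / ρ) ^ (κ - 2) := by rw [h2]
        _ ≤ c1 * (1 + c2) * A * (δ ^ n / ang δ e e') * (δ / ρ) ^ (κ - 2) := by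
            gcongr; linarith

/-- interpolation between the first and second moments -/
theorem holder_two {n : ℕ} {ι : Type*} [Fintype ι] (T : ι → Set (EuclideanSpace ℝ (Fin n)))
    (hT : ∀ i, MeasurableSet (T i)) (q : ℝ) (hq1 : 1 ≤ q) (hq2 : q ≤ 2) :
    ∫⁻ y, (∑ i, (T i).indicator (1 : EuclideanSpace ℝ (Fin n) → ℝ≥0∞) y) ^ q ≤
      (∑ i, volume (T i)) ^ (2 - q) * (∑ i, ∑ j, volume (T i ∩ T j)) ^ (q - 1) := by
  have hm : ∀ i, Measurable ((T i).indicator (1 : EuclideanSpace ℝ (Fin n) → ℝ≥0∞)) :=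
    fun i => measurable_one.indicator (hT i)
  have hmS : Measurable fun y => ∑ i, (T i).indicator (1 : EuclideanSpace ℝ (Fin n) → ℝ≥0∞) y :=
    Finset.measurable_fun_sum _ fun i _ => hm i
  have h1 : ∫⁻ y, ∑ i, (T i).indicator (1 : EuclideanSpace ℝ (Fin n) → ℝ≥0∞) y = ∑ i, volume (T i) := by
    rw [lintegral_finsetSum _ fun i _ => hm i]
    refine Finset.sum_congr rfl fun i _ => lintegral_indicator_one (hT i)
  have h2 : ∫⁻ y, (∑ i, (T i).indicator (1 : EuclideanSpace ℝ (Fin n) → ℝ≥0∞) y) ^ 2 =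
      ∑ i, ∑ j, volume (T i ∩ T j) := by
    have h3 : ∀ y, (∑ i, (T i).indicator (1 : EuclideanSpace ℝ (Fin n) → ℝ≥0∞) y) ^ 2 =
        ∑ i, ∑ j, (T i ∩ T j).indicator (1 : EuclideanSpace ℝ (Fin n) → ℝ≥0∞) y := by
      intro y
      rw [sq, Finset.sum_mul_sum]
      refine Finset.sum_congr rfl fun i _ => Finset.sum_congr rfl fun j _ => ?_
      rw [Set.inter_indicator_one]; rfl
    simp_rw [h3]
    rw [lintegral_finsetSum _ fun i _ => Finset.measurable_fun_sum _ fun j _ =>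
      measurable_one.indicator ((hT i).inter (hT j))]
    refine Finset.sum_congr rfl fun i _ => ?_
    rw [lintegral_finsetSum _ fun j _ => measurable_one.indicator ((hT i).inter (hT j))]
    refine Finset.sum_congr rfl fun j _ => lintegral_indicator_one ((hT i).inter (hT j))
  rw [← h1, ← h2]
  refine le_trans (le_of_eq ?_) (ENNReal.lintegral_mul_norm_pow_le hmS.aemeasurable
    (hmS.pow_const 2).aemeasurable (p := 2 - q) (q := q - 1) (by linarith) (by linarith) (by ring))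
  refine lintegral_congr fun y => ?_
  rw [← ENNReal.rpow_natCast_mul, ← ENNReal.rpow_add_of_nonneg _ _ (by linarith)
    (by push_cast; linarith)]
  congr 1
  push_cast; ring

/-- the abstract second moment estimate -/
theorem moment (n : ℕ) (hn : 1 ≤ n) : ∃ c : ℝ, 0 < c ∧ ∀ (δ : ℝ), 0 < δ → δ < 1 →
    ∀ (ι : Type) [Fintype ι] [DecidableEq ι] (a e : ι → EuclideanSpace ℝ (Fin n)),
    (∀ i, ‖e i‖ = 1) → ∀ (q : ℝ), 1 ≤ q → q ≤ 2 →
    ∀ (Ω : Type) [MeasurableSpace Ω] (P : Measure Ω) [IsProbabilityMeasure P]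
    (ξ : ι → Ω → EuclideanSpace ℝ (Fin n)) (B : ι → ι → ℝ) (M : ι → ι → Ω → ℝ≥0∞),
    (∀ i j, 0 ≤ B i j) →
    (∀ i j, i ≠ j → Measurable (M i j) ∧
      (∀ ω, volume (tube δ (a i + ξ i ω) (e i) ∩ tube δ (a j + ξ j ω) (e j)) ≤ M i j ω) ∧
      ∫⁻ ω, M i j ω ∂P ≤ ENNReal.ofReal (B i j)) →
    ∃ Y : Ω → ℝ≥0∞, Measurable Y ∧
    (∀ ω, ∫⁻ y, (∑ i, (tube δ (a i + ξ i ω) (e i)).indicator
      (1 : EuclideanSpace ℝ (Fin n) → ℝ≥0∞) y) ^ q ≤ Y ω) ∧
    ∫⁻ ω, Y ω ∂P ≤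
      ENNReal.ofReal ((c * (Fintype.card ι * δ ^ (n - 1))) ^ (2 - q) *
        (c * (Fintype.card ι * δ ^ (n - 1)) + ∑ i, ∑ j ∈ Finset.univ.erase i, B i j) ^ (q - 1)) := by
  obtain ⟨c, hc, H⟩ := tube_vol n hn
  refine ⟨c, hc, ?_⟩
  intro δ hδ hδ1 ι _ _ a e he q hq1 hq2 Ω _ P _ ξ B M hB hM
  set m : ℝ := (Fintype.card ι : ℝ) with hm
  set X : ℝ := c * (m * δ ^ (n - 1)) with hX
  have hX0 : 0 ≤ X := by rw [hX, hm]; positivity
  have hB0 : 0 ≤ ∑ i, ∑ j ∈ Finset.univ.erase i, B i j :=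
    Finset.sum_nonneg fun i _ => Finset.sum_nonneg fun j _ => hB i j
  have hsum1 : ∀ ω, ∑ i, volume (tube δ (a i + ξ i ω) (e i)) ≤ ENNReal.ofReal X := by
    intro ω
    refine (Finset.sum_le_sum fun i _ => H δ (a i + ξ i ω) (e i) hδ hδ1 (he i)).trans ?_
    rw [Finset.sum_const, nsmul_eq_mul, ← ENNReal.ofReal_natCast, ← ENNReal.ofReal_mul (by positivity),
      Finset.card_univ]
    apply ENNReal.ofReal_le_ofReal
    rw [hX, hm]
    apply le_of_eq; ring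
  set Y0 : Ω → ℝ≥0∞ := fun ω => ENNReal.ofReal X + ∑ i, ∑ j ∈ Finset.univ.erase i, M i j ω with hY0
  have hmeas2 : ∀ i, Measurable fun ω => ∑ j ∈ Finset.univ.erase i, M i j ω := fun i =>
    Finset.measurable_fun_sum _ fun j hj => (hM i j (Finset.ne_of_mem_erase hj).symm).1
  have hY0m : Measurable Y0 :=
    Measurable.add measurable_const (Finset.measurable_fun_sum _ fun i _ => hmeas2 i)
  have hY0le : ∀ ω, ∑ i, ∑ j, volume (tube δ (a i + ξ i ω) (e i) ∩ tube δ (a j + ξ j ω) (e j)) ≤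
      Y0 ω := by
    intro ω
    have h1 : ∑ i, ∑ j, volume (tube δ (a i + ξ i ω) (e i) ∩ tube δ (a j + ξ j ω) (e j)) ≤
        ∑ i, (volume (tube δ (a i + ξ i ω) (e i)) + ∑ j ∈ Finset.univ.erase i, M i j ω) := by
      refine Finset.sum_le_sum fun i _ => ?_
      rw [← Finset.add_sum_erase _ _ (Finset.mem_univ i), Set.inter_self]
      gcongr with j hj
      exact (hM i j (Finset.ne_of_mem_erase hj).symm).2.1 ω
    refine h1.trans ?_
    rw [Finset.sum_add_distrib, hY0]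
    simp only
    gcongr
    exact hsum1 ω
  refine ⟨fun ω => (ENNReal.ofReal X) ^ (2 - q) * (Y0 ω) ^ (q - 1), ?_, ?_, ?_⟩
  · exact (hY0m.pow_const _).const_mul _
  · intro ω
    refine (holder_two (fun i => tube δ (a i + ξ i ω) (e i))
      (fun i => (tube_closed _ _ _).measurableSet) q hq1 hq2).trans ?_
    exact mul_le_mul' (ENNReal.rpow_le_rpow (hsum1 ω) (by linarith))
      (ENNReal.rpow_le_rpow (hY0le ω) (by linarith))
  · rw [lintegral_const_mul _ (hY0m.pow_const _)]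
    have hJ : ∫⁻ ω, (Y0 ω) ^ (q - 1) ∂P ≤ (∫⁻ ω, Y0 ω ∂P) ^ (q - 1) := by
      have := ENNReal.lintegral_mul_norm_pow_le (μ := P) (f := fun _ => (1 : ℝ≥0∞)) (g := Y0)
        measurable_const.aemeasurable hY0m.aemeasurable (p := 2 - q) (q := q - 1) (by linarith)
        (by linarith) (by ring)
      simpa using this
    have hI : ∫⁻ ω, Y0 ω ∂P ≤ ENNReal.ofReal (X + ∑ i, ∑ j ∈ Finset.univ.erase i, B i j) := by
      rw [hY0, lintegral_add_left measurable_const, lintegral_const, measure_univ, mul_one,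
        ENNReal.ofReal_add hX0 hB0]
      gcongr
      rw [lintegral_finsetSum _ fun i _ => hmeas2 i,
        ENNReal.ofReal_sum_of_nonneg fun i _ => Finset.sum_nonneg fun j _ => hB i j]
      refine Finset.sum_le_sum fun i _ => ?_
      rw [lintegral_finsetSum _ fun j hj => (hM i j (Finset.ne_of_mem_erase hj).symm).1,
        ENNReal.ofReal_sum_of_nonneg fun j _ => hB i j]
      exact Finset.sum_le_sum fun j hj => (hM i j (Finset.ne_of_mem_erase hj).symm).2.2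
    calc (ENNReal.ofReal X) ^ (2 - q) * ∫⁻ ω, (Y0 ω) ^ (q - 1) ∂P
        ≤ (ENNReal.ofReal X) ^ (2 - q) *
          (ENNReal.ofReal (X + ∑ i, ∑ j ∈ Finset.univ.erase i, B i j)) ^ (q - 1) := by
          gcongr
          exact hJ.trans (ENNReal.rpow_le_rpow hI (by linarith))
      _ = ENNReal.ofReal (X ^ (2 - q) * (X + ∑ i, ∑ j ∈ Finset.univ.erase i, B i j) ^ (q - 1)) := by
          rw [ENNReal.ofReal_rpow_of_nonneg hX0 (by linarith),
            ENNReal.ofReal_rpow_of_nonneg (by positivity) (by linarith),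
            ENNReal.ofReal_mul (by positivity)]

end Pool.Agent.TH294.KT
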