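import Pool.Agent.TH294.KT.Count

/-!
# Sums over separated directions
-/

open MeasureTheory Metric Set Module
open scoped ENNReal

namespace Pool.Agent.TH294.KT

theorem sum_order {ι : Type*} [DecidableEq ι] (θ : ι → ℝ) (K : ℝ) (hK : 0 < K) (d : ℕ) (hd : 1 ≤ d)
    (β : ℝ) (hβ : 0 ≤ β) : ∀ (N : ℕ) (J : Finset ι), J.card = N → (∀ j ∈ J, 0 < θ j) →
    (∀ j ∈ J, ((J.filter fun j' => θ j' ≤ θ j).card : ℝ) ≤ (K * θ j) ^ d) →
    ∑ j ∈ J, (θ j) ^ (-β) ≤ K ^ β * ∑ k ∈ Finset.range N, ((k + 1 : ℕ) : ℝ) ^ (-(β / d)) := by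
  intro N
  induction N with
  | zero =>
    intro J hJ _ _
    rw [Finset.card_eq_zero] at hJ
    subst hJ
    simp
  | succ N ih =>
    intro J hJ hθ h
    have hne : J.Nonempty := by rw [← Finset.card_pos]; omega
    obtain ⟨j0, hj0, hmax⟩ := Finset.exists_max_image J θ hne
    have hall : (J.filter fun j' => θ j' ≤ θ j0) = J := Finset.filter_true_of_mem fun j hj => hmax j hj
    have h0 := h j0 hj0
    rw [hall, hJ] at h0
    have hθ0 := hθ j0 hj0
    have hd0 : (0 : ℝ) < d := by exact_mod_cast hd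
    have h1 : (θ j0) ^ (-β) ≤ K ^ β * ((N + 1 : ℕ) : ℝ) ^ (-(β / d)) := by
      have hN : (0 : ℝ) < ((N + 1 : ℕ) : ℝ) := by positivity
      have h2 : ((N + 1 : ℕ) : ℝ) ^ (β / d) ≤ (K * θ j0) ^ β := by
        have h3 : ((K * θ j0) ^ d) ^ (β / d) = (K * θ j0) ^ β := by
          rw [← Real.rpow_natCast, ← Real.rpow_mul (by positivity)]
          congr 1
          field_simp
        rw [← h3]
        exact Real.rpow_le_rpow hN.le h0 (by positivity)
      rw [Real.mul_rpow hK.le hθ0.le] at h2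
      rw [Real.rpow_neg hθ0.le, Real.rpow_neg hN.le, ← div_eq_mul_inv, inv_eq_one_div,
        div_le_div_iff₀ (Real.rpow_pos_of_pos hθ0 _) (Real.rpow_pos_of_pos hN _), one_mul]
      exact h2
    rw [← Finset.sum_erase_add J _ hj0, Finset.sum_range_succ, mul_add]
    refine add_le_add ?_ h1
    refine ih (J.erase j0) (by rw [Finset.card_erase_of_mem hj0, hJ]; rfl)
      (fun j hj => hθ j (Finset.mem_of_mem_erase hj)) ?_
    intro j hj
    refine le_trans ?_ (h j (Finset.mem_of_mem_erase hj))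
    have : ((J.erase j0).filter fun j' => θ j' ≤ θ j) ⊆ J.filter fun j' => θ j' ≤ θ j :=
      Finset.filter_subset_filter _ (Finset.erase_subset _ _)
    exact_mod_cast Finset.card_le_card this

theorem sum_pow_le (γ : ℝ) (h0 : 0 ≤ γ) (h1 : γ < 1) (N : ℕ) :
    ∑ k ∈ Finset.range N, ((k + 1 : ℕ) : ℝ) ^ (-γ) ≤ (N : ℝ) ^ (1 - γ) / (1 - γ) := by
  have hg : 0 < 1 - γ := by linarith
  induction N with
  | zero =>
    simp only [Finset.range_zero, Finset.sum_empty, Nat.cast_zero]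
    rw [Real.zero_rpow hg.ne', zero_div]
  | succ N ih =>
    rw [Finset.sum_range_succ]
    refine (add_le_add_left ih _).trans ?_
    have hM : (0 : ℝ) < ((N + 1 : ℕ) : ℝ) := by positivity
    set M : ℝ := ((N + 1 : ℕ) : ℝ) with hMdef
    have hNM : (N : ℝ) = M * (1 + (-1 / M)) := by
      rw [mul_add, mul_one, mul_div_assoc', mul_neg_one, neg_div, div_self hM.ne', hMdef]
      push_cast; ring
    have hM1 : 1 ≤ M := by rw [hMdef]; push_cast; linarith [(Nat.cast_nonneg N : (0 : ℝ) ≤ N)]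
    have hb : (1 + (-1 / M)) ^ (1 - γ) ≤ 1 + (1 - γ) * (-1 / M) := by
      apply rpow_one_add_le_one_add_mul_self _ hg.le (by linarith)
      rw [neg_div, neg_le_neg_iff, div_le_one hM]; exact hM1
    have hnn : 0 ≤ 1 + (-1 / M) := by
      have : 1 / M ≤ 1 := by rw [div_le_one hM]; exact hM1
      rw [neg_div]; linarith
    have h2 : (N : ℝ) ^ (1 - γ) ≤ M ^ (1 - γ) * (1 + (1 - γ) * (-1 / M)) := by
      rw [hNM, Real.mul_rpow hM.le hnn]
      gcongr
    have h3 : M ^ (1 - γ) * (1 / M) = M ^ (-γ) := by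
      rw [show (1 - γ) = -γ + 1 by ring, Real.rpow_add_one hM.ne']
      field_simp
    have h4 : (N : ℝ) ^ (1 - γ) / (1 - γ) ≤ (M ^ (1 - γ) - (1 - γ) * M ^ (-γ)) / (1 - γ) := by
      gcongr
      calc (N : ℝ) ^ (1 - γ) ≤ M ^ (1 - γ) * (1 + (1 - γ) * (-1 / M)) := h2
        _ = M ^ (1 - γ) - (1 - γ) * (M ^ (1 - γ) * (1 / M)) := by ring
        _ = _ := by rw [h3]
    have h5 : (M ^ (1 - γ) - (1 - γ) * M ^ (-γ)) / (1 - γ) = M ^ (1 - γ) / (1 - γ) - M ^ (-γ) := by
      rw [sub_div, mul_div_cancel_left₀ _ hg.ne']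
    rw [h5] at h4
    linarith

theorem sum_harm_le (N : ℕ) :
    ∑ k ∈ Finset.range N, ((k + 1 : ℕ) : ℝ) ^ (-(1 : ℝ)) ≤ 1 + Real.log N := by
  have h := harmonic_le_one_add_log N
  refine le_trans (le_of_eq ?_) h
  rw [harmonic]
  push_cast
  refine Finset.sum_congr rfl fun k _ => ?_
  rw [Real.rpow_neg_one]

/-- truncated angle between two directions -/
noncomputable def ang {n : ℕ} (δ : ℝ) (e e' : EuclideanSpace ℝ (Fin n)) : ℝ :=
  max δ (min ‖e - e'‖ ‖e + e'‖)

theorem ang_ge {n : ℕ} (δ : ℝ) (e e' : EuclideanSpace ℝ (Fin n)) : δ ≤ ang δ e e' := le_max_left _ _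

theorem ang_sum (n : ℕ) (hn : 2 ≤ n) : ∃ K : ℝ, 1 ≤ K ∧ ∀ (ι : Type) [Fintype ι] [DecidableEq ι]
    (e : ι → EuclideanSpace ℝ (Fin n)) (δ : ℝ), 0 < δ → (∀ i, ‖e i‖ = 1) →
    (∀ i j, i ≠ j → δ ≤ ‖e i - e j‖) → ∀ (i : ι) (β : ℝ), 0 ≤ β → β ≤ n - 1 →
    ∑ j ∈ Finset.univ.erase i, (ang δ (e i) (e j)) ^ (-β) ≤
      K * δ ^ (-β) * ∑ k ∈ Finset.range (Fintype.card ι - 1), ((k + 1 : ℕ) : ℝ) ^ (-(β / (n - 1 : ℕ))) := by
  obtain ⟨K0, hK0, H⟩ := cap_count n (by omega)
  set K1 : ℝ := max 1 (2 * K0) with hK1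
  have hK11 : 1 ≤ K1 := le_max_left _ _
  refine ⟨K1 ^ (n - 1), one_le_pow₀ hK11, ?_⟩
  intro ι _ _ e δ hδ he hsep i β hβ hβn
  have hcount : ∀ j ∈ Finset.univ.erase i,
      (((Finset.univ.erase i).filter fun j' => ang δ (e i) (e j') ≤ ang δ (e i) (e j)).card : ℝ) ≤
        (K1 / δ * ang δ (e i) (e j)) ^ (n - 1) := by
    intro j _
    set s := ang δ (e i) (e j) with hs
    have hδs : δ ≤ s := ang_ge _ _ _
    have hsub : ((Finset.univ.erase i).filter fun j' => ang δ (e i) (e j') ≤ s) ⊆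
        (Finset.univ.filter fun j' => ‖e j' - e i‖ ≤ s) ∪
        (Finset.univ.filter fun j' => ‖e j' - (-e i)‖ ≤ s) := by
      intro j' hj'
      have h1 := (Finset.mem_filter.mp hj').2
      rw [Finset.mem_union, Finset.mem_filter, Finset.mem_filter]
      have h2 : min ‖e i - e j'‖ ‖e i + e j'‖ ≤ s := (le_max_right _ _).trans h1
      rcases min_le_iff.mp h2 with h | h
      · left; exact ⟨Finset.mem_univ _, by rw [norm_sub_rev]; exact h⟩
      · right
        refine ⟨Finset.mem_univ _, ?_⟩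
        rw [sub_neg_eq_add, add_comm]; exact h
    have hA := H ι (Finset.univ.filter fun j' => ‖e j' - e i‖ ≤ s) e (e i) δ s hδ hδs
      (fun j _ => he j) (he i) (fun j _ j' _ h => hsep j j' h) (fun j hj => (Finset.mem_filter.mp hj).2)
    have hB := H ι (Finset.univ.filter fun j' => ‖e j' - (-e i)‖ ≤ s) e (-e i) δ s hδ hδs
      (fun j _ => he j) (by rw [norm_neg]; exact he i) (fun j _ j' _ h => hsep j j' h)
      (fun j hj => (Finset.mem_filter.mp hj).2)
    calc (((Finset.univ.erase i).filter fun j' => ang δ (e i) (e j') ≤ s).card : ℝ)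
        ≤ (((Finset.univ.filter fun j' => ‖e j' - e i‖ ≤ s) ∪
          (Finset.univ.filter fun j' => ‖e j' - (-e i)‖ ≤ s)).card : ℝ) := by
          exact_mod_cast Finset.card_le_card hsub
      _ ≤ ((Finset.univ.filter fun j' => ‖e j' - e i‖ ≤ s).card : ℝ) +
          ((Finset.univ.filter fun j' => ‖e j' - (-e i)‖ ≤ s).card : ℝ) := by
          exact_mod_cast Finset.card_union_le _ _
      _ ≤ K0 * (s / δ) ^ (n - 1) + K0 * (s / δ) ^ (n - 1) := add_le_add hA hB
      _ = 2 * K0 * (s / δ) ^ (n - 1) := by ring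
      _ ≤ K1 ^ (n - 1) * (s / δ) ^ (n - 1) := by
          gcongr
          · have : 0 < s := hδ.trans_le hδs
            positivity
          · exact (le_max_right _ _).trans (le_self_pow₀ hK11 (by omega))
      _ = (K1 / δ * s) ^ (n - 1) := by rw [← mul_pow]; ring
  have hcard : (Finset.univ.erase i).card = Fintype.card ι - 1 := by
    rw [Finset.card_erase_of_mem (Finset.mem_univ i), Finset.card_univ]
  have h := sum_order (fun j => ang δ (e i) (e j)) (K1 / δ) (by positivity) (n - 1) (by omega) β hβ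
    (Fintype.card ι - 1) (Finset.univ.erase i) hcard (fun j _ => hδ.trans_le (ang_ge _ _ _)) hcount
  refine h.trans ?_
  have hK : (K1 / δ) ^ β ≤ K1 ^ (n - 1) * δ ^ (-β) := by
    rw [Real.div_rpow (by linarith) hδ.le, Real.rpow_neg hδ.le, div_eq_mul_inv]
    gcongr
    rw [← Real.rpow_natCast]
    apply Real.rpow_le_rpow_of_exponent_le hK11
    rw [Nat.cast_sub (by omega)]
    push_cast
    exact hβn
  have hnn : 0 ≤ ∑ k ∈ Finset.range (Fintype.card ι - 1), ((k + 1 : ℕ) : ℝ) ^ (-(β / (n - 1 : ℕ))) :=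
    Finset.sum_nonneg fun k _ => by positivity
  exact mul_le_mul_of_nonneg_right hK hnn

end Pool.Agent.TH294.KT
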